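import Mathlib
import Pool.Agent.Helper61.CAR.GoalsQ

/-! CAR-CHOI: the Choi form of a completely positive contraction out of a matrix algebra. -/

open scoped ComplexOrder

namespace Pool.Agent.Helper44.CAR

open Pool.Agent.Helper34.CAR Pool.Agent.Helper61.CAR

/-- matrix units -/
noncomputable def mu {m : ℕ} (i j : Fin m) : CStarMatrix (Fin m) (Fin m) ℂ :=
  CStarMatrix.ofMatrix fun p q => if p = i ∧ q = j then 1 else 0

theorem mu_apply {m : ℕ} (i j p q : Fin m) :
    mu i j p q = if p = i ∧ q = j then 1 else 0 := rfl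

theorem sum_entry' {ι R : Type} [AddCommMonoid R] {m : ℕ} (t : Finset ι)
    (f : ι → CStarMatrix (Fin m) (Fin m) R)
    (i j : Fin m) : (∑ r ∈ t, f r) i j = ∑ r ∈ t, f r i j := by
  classical
  induction t using Finset.induction_on with
  | empty => simp
  | insert a s ha ih => rw [Finset.sum_insert ha, Finset.sum_insert ha, CStarMatrix.add_apply, ih]

theorem mu_mul {m : ℕ} (i j k : Fin m) : star (mu k i) * mu k j = mu i j := by
  ext p q
  rw [CStarMatrix.mul_apply, Finset.sum_eq_single k]
  · rw [CStarMatrix.star_apply, mu_apply, mu_apply, mu_apply]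
    by_cases h1 : p = i <;> by_cases h2 : q = j <;> simp [h1, h2]
  · intro b _ hb
    rw [CStarMatrix.star_apply, mu_apply, mu_apply]
    simp [hb]
  · simp

theorem mu_sum {m : ℕ} (x : CStarMatrix (Fin m) (Fin m) ℂ) :
    x = ∑ i, ∑ j, x i j • mu i j := by
  ext p q
  rw [sum_entry', Finset.sum_eq_single p]
  · rw [sum_entry', Finset.sum_eq_single q]
    · rw [CStarMatrix.smul_apply, mu_apply]; simp
    · intro b _ hb
      rw [CStarMatrix.smul_apply, mu_apply]; simp [hb.symm]
    · simp
  · intro b _ hb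
    rw [sum_entry']
    refine Finset.sum_eq_zero fun j _ => ?_
    rw [CStarMatrix.smul_apply, mu_apply]; simp [hb.symm]
  · simp

theorem choi : S_CHOI := by
  intro D _ m ψ hψ h1
  rcases Nat.eq_zero_or_pos m with rfl | hm
  · refine ⟨fun i => i.elim0, fun x => ?_, ?_⟩
    · have : x = 0 := by ext i; exact i.elim0
      simp [this]
    · simp
  obtain ⟨k, rfl⟩ := Nat.exists_eq_succ_of_ne_zero hm.ne'
  let a : CStarMatrix (Fin (k + 1)) (Fin (k + 1)) (CStarMatrix (Fin (k + 1)) (Fin (k + 1)) ℂ) :=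
    CStarMatrix.ofMatrix fun i j => if i = 0 then mu 0 j else 0
  obtain ⟨c, hc⟩ := hψ _ a
  have a0 : ∀ j, a 0 j = mu 0 j := fun j => rfl
  have a1 : ∀ i j, i ≠ 0 → a i j = 0 := fun i j hi => if_neg hi
  have ha : ∀ i j, (star a * a) i j = mu i j := by
    intro i j
    rw [CStarMatrix.mul_apply, Finset.sum_eq_single 0]
    · rw [CStarMatrix.star_apply, a0, a0, mu_mul]
    · intro b _ hb
      rw [CStarMatrix.star_apply, a1 b _ hb]; simp
    · simp
  have hψe : ∀ i j, ψ (mu i j) = ∑ r, star (c r i) * c r j := by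
    intro i j
    rw [← ha, ← CStarMatrix.map_apply (M := star a * a) (f := ψ), hc, CStarMatrix.mul_apply]
    rfl
  have hm1 : ∀ x, ψ x = ∑ r, qf x (c r) := by
    intro x
    conv_lhs => rw [mu_sum x]
    simp only [map_sum, map_smul, hψe, qf, Finset.smul_sum]
    calc _ = ∑ i, ∑ r, ∑ j, x i j • (star (c r i) * c r j) :=
          Finset.sum_congr rfl fun i _ => Finset.sum_comm
      _ = _ := Finset.sum_comm
  refine ⟨c, hm1, ?_⟩
  have h2 : ∑ r, ∑ i, star (c r i) * c r i = ψ 1 := by
    rw [hm1]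
    refine Finset.sum_congr rfl fun r _ => ?_
    rw [qf]
    refine Finset.sum_congr rfl fun i _ => ?_
    rw [Finset.sum_eq_single i]
    · simp
    · intro b _ hb; rw [CStarMatrix.one_apply, if_neg hb.symm, zero_smul]
    · simp
  rw [h2]
  exact (h1 1).trans (by simp)

end Pool.Agent.Helper44.CAR
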