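import Mathlib
import Pool.Agent.Helper61.CAR.GoalsQ

/-! CAR-QSEQ: property (Q) for a separable algebra gives a sequence of approximations. -/

open scoped ComplexOrder Topology
open Filter

namespace Pool.Agent.Helper44.CAR

open Pool.Agent.Helper34.CAR Pool.Agent.Helper61.CAR

theorem qf_sub {J R : Type} [Fintype J] [NonUnitalCStarAlgebra R] (a b : CStarMatrix J J ℂ)
    (v : J → R) : qf (a - b) v = qf a v - qf b v := by
  simp only [qf, CStarMatrix.sub_apply, sub_smul, Finset.sum_sub_distrib]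

theorem qseq (hCOL : S_COL) : S_QSEQ := by
  intro Y _ _ hY
  have hne : ∀ n : ℕ, (0 : ℝ) < 1 / ((n : ℝ) + 1) := fun n => by positivity
  classical
  let d := TopologicalSpace.denseSeq Y
  have hd := TopologicalSpace.denseRange_denseSeq Y
  choose J fJ dJ Φ y hcontr hstar hcol hmul happ using fun n : ℕ =>
    hY ((Finset.range (n + 1)).image d) (1 / ((n : ℝ) + 1)) (hne n)
  have hmem : ∀ i n, i ≤ n → d i ∈ (Finset.range (n + 1)).image d := fun i n h =>
    Finset.mem_image_of_mem _ (Finset.mem_range.2 (by omega))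
  have hnear : ∀ (f : Y) (ε : ℝ), 0 < ε → ∃ i, ‖f - d i‖ < ε := by
    intro f ε hε
    obtain ⟨i, hi⟩ := hd.exists_dist_lt f hε
    exact ⟨i, by rw [← dist_eq_norm]; exact hi⟩
  have hsmall : ∀ ε : ℝ, 0 < ε → ∀ᶠ n : ℕ in atTop, 1 / ((n : ℝ) + 1) < ε := fun ε hε =>
    (tendsto_one_div_add_atTop_nhds_zero_nat (𝕜 := ℝ)).eventually (gt_mem_nhds hε)
  refine ⟨⟨J, fJ, dJ, Φ, y, hcontr, hstar, hcol, ?_, ?_⟩⟩
  · intro f g
    rw [Metric.tendsto_atTop']
    intro ε hε
    set C : ℝ := 4 * (‖f‖ + ‖g‖ + 1) + 1 with hC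
    have hCpos : 0 < C := by positivity
    set δ : ℝ := min 1 (ε / (2 * C)) with hδ
    have hδ0 : 0 < δ := by positivity
    have hδ1 : δ ≤ 1 := min_le_left _ _
    have hδC : δ * C ≤ ε / 2 := by
      calc δ * C ≤ ε / (2 * C) * C := by gcongr; exact min_le_right _ _
        _ = ε / 2 := by field_simp
    obtain ⟨i, hi⟩ := hnear f δ hδ0
    obtain ⟨j, hj⟩ := hnear g δ hδ0
    obtain ⟨N, hN⟩ := eventually_atTop.1 (hsmall (ε / 2) (by positivity))
    refine ⟨max N (max i j), fun n hn => ?_⟩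
    have hnN : N ≤ n := by omega
    have hni : i ≤ n := by omega
    have hnj : j ≤ n := by omega
    rw [Real.dist_eq, sub_zero, abs_of_nonneg (norm_nonneg _)]
    have h1 := hmul n (d i) (hmem i n hni) (d j) (hmem j n hnj)
    have h2 := hN n hnN
    have hdi : ‖d i‖ ≤ ‖f‖ + δ := by
      have : ‖d i‖ ≤ ‖f‖ + ‖f - d i‖ := by
        calc ‖d i‖ = ‖f - (f - d i)‖ := by rw [sub_sub_cancel]
          _ ≤ _ := norm_sub_le _ _
      linarith
    have e1 : ‖f * g - d i * d j‖ ≤ ‖f - d i‖ * ‖g‖ + ‖d i‖ * ‖g - d j‖ := by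
      have : f * g - d i * d j = (f - d i) * g + d i * (g - d j) := by noncomm_ring
      rw [this]
      exact (norm_add_le _ _).trans (add_le_add (norm_mul_le _ _) (norm_mul_le _ _))
    have e2 : ‖Φ n (f * g) - Φ n (d i * d j)‖ ≤ ‖f * g - d i * d j‖ := by
      rw [← map_sub]; exact hcontr n _
    have e3 : ‖Φ n (d i) * Φ n (d j) - Φ n f * Φ n g‖
        ≤ ‖f - d i‖ * ‖g‖ + ‖d i‖ * ‖g - d j‖ := by
      have : Φ n (d i) * Φ n (d j) - Φ n f * Φ n g
          = Φ n (d i - f) * Φ n g + Φ n (d i) * Φ n (d j - g) := by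
        rw [map_sub, map_sub]; noncomm_ring
      rw [this]
      refine (norm_add_le _ _).trans (add_le_add ((norm_mul_le _ _).trans ?_)
        ((norm_mul_le _ _).trans ?_))
      · rw [norm_sub_rev f]
        exact mul_le_mul (hcontr n _) (hcontr n _) (norm_nonneg _) (norm_nonneg _)
      · rw [norm_sub_rev g]
        exact mul_le_mul (hcontr n _) (hcontr n _) (norm_nonneg _) (norm_nonneg _)
    have e4 : Φ n (f * g) - Φ n f * Φ n g = (Φ n (f * g) - Φ n (d i * d j))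
        + (Φ n (d i * d j) - Φ n (d i) * Φ n (d j)) + (Φ n (d i) * Φ n (d j) - Φ n f * Φ n g) := by
      abel
    have e5 : ‖f - d i‖ * ‖g‖ + ‖d i‖ * ‖g - d j‖ ≤ δ * (‖f‖ + ‖g‖ + 1) := by
      have a1 : ‖f - d i‖ * ‖g‖ ≤ δ * ‖g‖ := by gcongr
      have a2 : ‖d i‖ * ‖g - d j‖ ≤ (‖f‖ + 1) * δ := by
        have : ‖d i‖ ≤ ‖f‖ + 1 := by linarith
        gcongr
      nlinarith
    rw [e4]
    calc _ ≤ ‖Φ n (f * g) - Φ n (d i * d j)‖ + ‖Φ n (d i * d j) - Φ n (d i) * Φ n (d j)‖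
          + ‖Φ n (d i) * Φ n (d j) - Φ n f * Φ n g‖ := norm_add₃_le
      _ < ε := by
        have : δ * (‖f‖ + ‖g‖ + 1) * 2 ≤ δ * C := by
          rw [hC]
          nlinarith [norm_nonneg f, norm_nonneg g]
        linarith
  · intro f
    rw [Metric.tendsto_atTop']
    intro ε hε
    obtain ⟨i, hi⟩ := hnear f (ε / 4) (by positivity)
    obtain ⟨N, hN⟩ := eventually_atTop.1 (hsmall (ε / 2) (by positivity))
    refine ⟨max N i, fun n hn => ?_⟩
    have hnN : N ≤ n := by omega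
    have hni : i ≤ n := by omega
    rw [Real.dist_eq, sub_zero, abs_of_nonneg (norm_nonneg _)]
    have h1 := happ n (d i) (hmem i n hni)
    have h2 := hN n hnN
    have e1 : ‖qf (Φ n (f - d i)) (y n)‖ ≤ ‖f - d i‖ := by
      have := hCOL Y (J n) (Φ n (f - d i)) (y n)
      calc _ ≤ _ := this
        _ ≤ ‖f - d i‖ * 1 := mul_le_mul (hcontr n _) (hcol n) (norm_nonneg _) (norm_nonneg _)
        _ = _ := mul_one _
    have e4 : qf (Φ n f) (y n) - f = qf (Φ n (f - d i)) (y n) + (qf (Φ n (d i)) (y n) - d i)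
        + (d i - f) := by
      rw [map_sub, qf_sub]; abel
    rw [e4]
    calc _ ≤ ‖qf (Φ n (f - d i)) (y n)‖ + ‖qf (Φ n (d i)) (y n) - d i‖ + ‖d i - f‖ :=
          norm_add₃_le
      _ < ε := by
        rw [norm_sub_rev (d i) f]
        linarith

end Pool.Agent.Helper44.CAR
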