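import Mathlib
import Pool.Agent.Helper61.CAR.GoalsQ

/-! Stinespring dilation of completely positive contractions into matrix algebras. -/

open scoped ComplexOrder CStarAlgebra
open Filter Topology

namespace Pool.Agent.Helper44.CAR

open Pool.Agent.Helper34.CAR

section
variable {D : Type} [NonUnitalCStarAlgebra D] {n : ℕ}

/-- the functional on matrices attached to `φ` -/
noncomputable def fn (φ : D →ₗ[ℂ] CStarMatrix (Fin (n + 1)) (Fin (n + 1)) ℂ) :
    CStarMatrix (Fin (n + 1)) (Fin (n + 1)) D →ₗ[ℂ] ℂ where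
  toFun a := ∑ i, ∑ j, φ (a i j) i j
  map_add' a b := by
    simp [Finset.sum_add_distrib]
  map_smul' r a := by
    simp [Finset.mul_sum]

theorem fn_apply (φ : D →ₗ[ℂ] CStarMatrix (Fin (n + 1)) (Fin (n + 1)) ℂ)
    (a : CStarMatrix (Fin (n + 1)) (Fin (n + 1)) D) :
    fn φ a = ∑ i, ∑ j, φ (a i j) i j := rfl

theorem sum_entry {ι : Type} [Fintype ι] {m : ℕ} (f : ι → CStarMatrix (Fin m) (Fin m) ℂ)
    (i j : Fin m) : (∑ r, f r) i j = ∑ r, f r i j := by
  have : ∀ s : Finset ι, (∑ r ∈ s, f r) i j = ∑ r ∈ s, f r i j := by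
    intro s
    classical
    induction s using Finset.induction_on with
    | empty => simp
    | insert a s ha ih => rw [Finset.sum_insert ha, Finset.sum_insert ha, CStarMatrix.add_apply, ih]
  exact this _

theorem fn_pos (φ : D →ₗ[ℂ] CStarMatrix (Fin (n + 1)) (Fin (n + 1)) ℂ) (hφ : IsCP φ)
    (a : CStarMatrix (Fin (n + 1)) (Fin (n + 1)) D) : 0 ≤ fn φ (star a * a) := by
  obtain ⟨c, hc⟩ := hφ _ a
  have h1 : ∀ i j, φ ((star a * a) i j) i j
      = ∑ r, ∑ s, star ((c r i) s i) * (c r j) s j := by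
    intro i j
    have h2 : φ ((star a * a) i j) = (star c * c) i j := by
      rw [← hc]; rfl
    rw [h2, CStarMatrix.mul_apply, sum_entry]
    refine Finset.sum_congr rfl fun r _ => ?_
    rw [CStarMatrix.mul_apply]
    rfl
  rw [fn_apply]
  have h3 : ∑ i, ∑ j, φ ((star a * a) i j) i j
      = ∑ r, ∑ s, star (∑ i, (c r i) s i) * (∑ j, (c r j) s j) := by
    simp_rw [h1]
    have : ∀ r s, star (∑ i, (c r i) s i) * (∑ j, (c r j) s j)
        = ∑ i, ∑ j, star ((c r i) s i) * (c r j) s j := by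
      intro r s
      rw [star_sum, Finset.sum_mul_sum]
    simp_rw [this]
    calc ∑ i, ∑ j, ∑ r, ∑ s, star ((c r i) s i) * (c r j) s j
        = ∑ i, ∑ r, ∑ j, ∑ s, star ((c r i) s i) * (c r j) s j :=
          Finset.sum_congr rfl fun i _ => Finset.sum_comm
      _ = ∑ r, ∑ i, ∑ j, ∑ s, star ((c r i) s i) * (c r j) s j := Finset.sum_comm
      _ = ∑ r, ∑ i, ∑ s, ∑ j, star ((c r i) s i) * (c r j) s j :=
          Finset.sum_congr rfl fun r _ => Finset.sum_congr rfl fun i _ => Finset.sum_comm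
      _ = ∑ r, ∑ s, ∑ i, ∑ j, star ((c r i) s i) * (c r j) s j :=
          Finset.sum_congr rfl fun r _ => Finset.sum_comm
  rw [h3]
  exact Finset.sum_nonneg fun r _ => Finset.sum_nonneg fun s _ => star_mul_self_nonneg _

theorem phi_cont (φ : D →ₗ[ℂ] CStarMatrix (Fin (n + 1)) (Fin (n + 1)) ℂ)
    (h1 : ∀ x, ‖φ x‖ ≤ ‖x‖) : Continuous φ :=
  (φ.mkContinuous 1 (by simpa using h1)).continuous

theorem phi_entry_cont (φ : D →ₗ[ℂ] CStarMatrix (Fin (n + 1)) (Fin (n + 1)) ℂ)
    (h1 : ∀ x, ‖φ x‖ ≤ ‖x‖) (i j : Fin (n + 1)) : Continuous fun x => φ x i j := by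
  have h2 := phi_cont φ h1
  have h3 : Continuous fun M : CStarMatrix (Fin (n + 1)) (Fin (n + 1)) ℂ => M i j := by
    exact (continuous_apply_apply i j : Continuous fun M : Fin (n + 1) → Fin (n + 1) → ℂ => M i j)
  exact h3.comp h2

/-- the matrix with first row `x, y` -/
def rowMat (x y : D) : CStarMatrix (Fin 2) (Fin 2) D :=
  fun i j => if i = 0 then (if j = 0 then x else y) else 0

theorem rowMat_mul (x y : D) (i j : Fin 2) :
    (star (rowMat x y) * rowMat x y) i j = star (rowMat x y 0 i) * rowMat x y 0 j := by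
  rw [CStarMatrix.mul_apply, Fin.sum_univ_two, CStarMatrix.star_apply, CStarMatrix.star_apply]
  have h : ∀ i, rowMat x y 1 i = 0 := fun i => by simp [rowMat]
  rw [h, h]; simp

/-- `φ` is hermitian -/
theorem phi_star (φ : D →ₗ[ℂ] CStarMatrix (Fin (n + 1)) (Fin (n + 1)) ℂ) (hφ : IsCP φ)
    (h1 : ∀ x, ‖φ x‖ ≤ ‖x‖) (x : D) : φ (star x) = star (φ x) := by
  have key : ∀ x y : D, φ (star y * x) = star (φ (star x * y)) := by
    intro x y
    obtain ⟨c, hc⟩ := hφ 2 (rowMat x y)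
    have h2 : ∀ i j, (star c * c) i j = star ((star c * c) j i) := by
      intro i j
      have h3 : star (star c * c) = star c * c := by simp
      conv_lhs => rw [← h3]
      rfl
    have h4 := h2 1 0
    rw [← hc, CStarMatrix.map_apply, CStarMatrix.map_apply, rowMat_mul, rowMat_mul] at h4
    exact h4
  let _ : PartialOrder D := CStarAlgebra.spectralOrder D
  have _ : StarOrderedRing D := CStarAlgebra.spectralOrderedRing D
  have hu := CStarAlgebra.increasingApproximateUnit D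
  have hne : (CStarAlgebra.approximateUnit D).NeBot := hu.neBot
  have hc := phi_cont φ h1
  have l1 : Tendsto (fun e => φ (star x * e)) (CStarAlgebra.approximateUnit D) (𝓝 (φ (star x))) :=
    (hc.tendsto _).comp (hu.tendsto_mul_left (star x))
  have l2 : Tendsto (fun e => star (φ (e * x))) (CStarAlgebra.approximateUnit D)
      (𝓝 (star (φ x))) :=
    (continuous_star.tendsto _).comp ((hc.tendsto _).comp (hu.tendsto_mul_right x))
  refine tendsto_nhds_unique l1 (l2.congr' ?_)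
  filter_upwards [hu.eventually_star_eq] with e he
  rw [key, he]

theorem fn_nonneg [PartialOrder D] [StarOrderedRing D]
    (φ : D →ₗ[ℂ] CStarMatrix (Fin (n + 1)) (Fin (n + 1)) ℂ) (hφ : IsCP φ)
    (a : CStarMatrix (Fin (n + 1)) (Fin (n + 1)) D) (ha : 0 ≤ a) : 0 ≤ fn φ a := by
  rw [StarOrderedRing.nonneg_iff] at ha
  induction ha using AddSubmonoid.closure_induction with
  | mem x hx =>
    obtain ⟨b, rfl⟩ := hx
    exact fn_pos φ hφ b
  | zero => simp
  | add x y _ _ hx hy => rw [map_add]; exact add_nonneg hx hy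

/-- the positive functional -/
noncomputable def fp [PartialOrder D] [StarOrderedRing D]
    (φ : D →ₗ[ℂ] CStarMatrix (Fin (n + 1)) (Fin (n + 1)) ℂ) (hφ : IsCP φ) :
    CStarMatrix (Fin (n + 1)) (Fin (n + 1)) D →ₚ[ℂ] ℂ :=
  PositiveLinearMap.mk₀ (fn φ) (fn_nonneg φ hφ)

theorem fp_apply [PartialOrder D] [StarOrderedRing D]
    (φ : D →ₗ[ℂ] CStarMatrix (Fin (n + 1)) (Fin (n + 1)) ℂ) (hφ : IsCP φ)
    (a : CStarMatrix (Fin (n + 1)) (Fin (n + 1)) D) :
    fp φ hφ a = ∑ i, ∑ j, φ (a i j) i j := rfl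

/-- `d` at the position `0, k` -/
def ent (d : D) (k : Fin (n + 1)) : CStarMatrix (Fin (n + 1)) (Fin (n + 1)) D :=
  CStarMatrix.ofMatrix fun i j => if i = 0 then (if j = k then d else 0) else 0

theorem ent_apply (d : D) (k i j : Fin (n + 1)) :
    ent d k i j = if i = 0 then (if j = k then d else 0) else 0 := rfl

/-- embedding in the top left corner -/
def corner : D →⋆ₙₐ[ℂ] CStarMatrix (Fin (n + 1)) (Fin (n + 1)) D where
  toFun d := ent d 0
  map_smul' r d := by
    ext i j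
    rw [CStarMatrix.smul_apply, ent_apply, ent_apply]
    split_ifs <;> simp
  map_zero' := by
    ext i j
    rw [ent_apply]
    simp
  map_add' a b := by
    ext i j
    rw [CStarMatrix.add_apply, ent_apply, ent_apply, ent_apply]
    split_ifs <;> simp
  map_mul' a b := by
    ext i j
    rw [CStarMatrix.mul_apply]
    simp only [ent_apply]
    by_cases hi : i = 0 <;> by_cases hj : j = 0 <;> simp [hi, hj]
  map_star' a := by
    ext i j
    rw [CStarMatrix.star_apply, ent_apply, ent_apply]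
    by_cases hi : i = 0 <;> by_cases hj : j = 0 <;> simp [hi, hj]

theorem quad_le {m : ℕ} (M : CStarMatrix (Fin m) (Fin m) ℂ) (ξ η : Fin m → ℂ) :
    ‖∑ i, ∑ j, star (ξ i) * M i j * η j‖ ≤
      ‖M‖ * √(∑ i, ‖ξ i‖ ^ 2) * √(∑ i, ‖η i‖ ^ 2) := by
  set v : WithCStarModule ℂ (Fin m → ℂ) := (WithCStarModule.equiv ℂ _).symm fun i => star (ξ i)
    with hv
  set w : WithCStarModule ℂ (Fin m → ℂ) := (WithCStarModule.equiv ℂ _).symm fun i => star (η i)
    with hw
  have nv : ∀ ζ : Fin m → ℂ, ‖(WithCStarModule.equiv ℂ _).symm fun i => star (ζ i)‖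
      = √(∑ i, ‖ζ i‖ ^ 2) := by
    intro ζ
    rw [WithCStarModule.pi_norm]
    congr 1
    have : ∀ i, (inner ℂ ((WithCStarModule.equiv ℂ (Fin m → ℂ)).symm (fun i => star (ζ i)) i)
          ((WithCStarModule.equiv ℂ (Fin m → ℂ)).symm (fun i => star (ζ i)) i) : ℂ)
          = ((‖ζ i‖ ^ 2 : ℝ) : ℂ) := by
      intro i
      change star (ζ i) * star (star (ζ i)) = _
      rw [star_star, mul_comm, Complex.ofReal_pow]
      exact Complex.mul_conj' _
    simp_rw [this]
    rw [← Complex.ofReal_sum, Complex.norm_real, Real.norm_of_nonneg (by positivity)]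
  have h1 : (inner ℂ w (CStarMatrix.toCLM M v) : ℂ) = ∑ i, ∑ j, star (ξ i) * M i j * η j := by
    rw [CStarMatrix.toCLM_apply_eq_sum, WithCStarModule.pi_inner, Finset.sum_comm]
    refine Finset.sum_congr rfl fun j _ => ?_
    change (∑ i, star (ξ i) * M i j) * star (star (η j)) = _
    rw [star_star, Finset.sum_mul]
  rw [← h1]
  have h2 := CStarModule.norm_inner_le (A := ℂ) (WithCStarModule ℂ (Fin m → ℂ)) (x := w) (y := CStarMatrix.toCLM M v)
  have h3 := (CStarMatrix.toCLM M).le_opNorm v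
  rw [← CStarMatrix.norm_def] at h3
  rw [← nv ξ, ← nv η]
  calc _ ≤ _ := h2
    _ ≤ ‖w‖ * (‖M‖ * ‖v‖) := by gcongr
    _ = _ := by rw [hv, hw]; ring

/-- the row `j ↦ ∑ φ (a 0 j) k j` -/
noncomputable def rowv (φ : D →ₗ[ℂ] CStarMatrix (Fin (n + 1)) (Fin (n + 1)) ℂ)
    (a : CStarMatrix (Fin (n + 1)) (Fin (n + 1)) D) (k : Fin (n + 1)) : ℂ :=
  ∑ j, φ (a 0 j) k j

/-- first row `ξ j • e` -/
noncomputable def rowE (ξ : Fin (n + 1) → ℂ) (e : D) :
    CStarMatrix (Fin (n + 1)) (Fin (n + 1)) D :=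
  CStarMatrix.ofMatrix fun i j => if i = 0 then ξ j • e else 0

theorem rowE_apply (ξ : Fin (n + 1) → ℂ) (e : D) (i j : Fin (n + 1)) :
    rowE ξ e i j = if i = 0 then ξ j • e else 0 := rfl

theorem fn_rowE (φ : D →ₗ[ℂ] CStarMatrix (Fin (n + 1)) (Fin (n + 1)) ℂ)
    (ξ : Fin (n + 1) → ℂ) (e : D) (a : CStarMatrix (Fin (n + 1)) (Fin (n + 1)) D) :
    fn φ (star (rowE ξ e) * a) = ∑ i, ∑ j, star (ξ i) * φ (star e * a 0 j) i j := by
  rw [fn_apply]
  refine Finset.sum_congr rfl fun i _ => Finset.sum_congr rfl fun j _ => ?_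
  have : (star (rowE ξ e) * a) i j = star (ξ i) • (star e * a 0 j) := by
    rw [CStarMatrix.mul_apply, Finset.sum_eq_single 0]
    · rw [CStarMatrix.star_apply, rowE_apply, if_pos rfl, star_smul, smul_mul_assoc]
    · intro b _ hb
      rw [CStarMatrix.star_apply, rowE_apply, if_neg hb]; simp
    · simp
  rw [this, map_smul, CStarMatrix.smul_apply, smul_eq_mul]

theorem rowv_bound' [PartialOrder D] [StarOrderedRing D]
    (φ : D →ₗ[ℂ] CStarMatrix (Fin (n + 1)) (Fin (n + 1)) ℂ) (hφ : IsCP φ)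
    (h1 : ∀ x, ‖φ x‖ ≤ ‖x‖) (a : CStarMatrix (Fin (n + 1)) (Fin (n + 1)) D) (e : D)
    (he : star e = e) (he1 : ‖e‖ ≤ 1) :
    ∑ k, ‖∑ j, φ (e * a 0 j) k j‖ ^ 2 ≤ (fn φ (star a * a)).re := by
  set ξ : Fin (n + 1) → ℂ := fun k => ∑ j, φ (e * a 0 j) k j with hξ
  set S : ℝ := ∑ k, ‖ξ k‖ ^ 2 with hS
  have hS0 : 0 ≤ S := by positivity
  set f := fp φ hφ with hf
  have hin : ∀ x y, (inner ℂ (f.toPreGNS x) (f.toPreGNS y) : ℂ) = fn φ (star x * y) :=
    fun x y => rfl
  have e1 : fn φ (star (rowE ξ e) * a) = (S : ℂ) := by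
    rw [fn_rowE, he, hS]
    push_cast
    refine Finset.sum_congr rfl fun i _ => ?_
    rw [← Finset.mul_sum]
    change star (ξ i) * ξ i = _
    rw [mul_comm]
    exact Complex.mul_conj' _
  have e2 : ‖f.toPreGNS (rowE ξ e)‖ ^ 2 ≤ S := by
    rw [← inner_self_eq_norm_sq (𝕜 := ℂ), hin, fn_rowE, he]
    have e3 : ∑ i, ∑ j, star (ξ i) * φ (e * rowE ξ e 0 j) i j
        = ∑ i, ∑ j, star (ξ i) * φ (e * e) i j * ξ j := by
      refine Finset.sum_congr rfl fun i _ => Finset.sum_congr rfl fun j _ => ?_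
      rw [rowE_apply, if_pos rfl, mul_smul_comm, map_smul, CStarMatrix.smul_apply, smul_eq_mul]
      ring
    rw [e3]
    refine (Complex.re_le_norm _).trans ((quad_le _ _ _).trans ?_)
    rw [mul_assoc, Real.mul_self_sqrt hS0]
    have : ‖φ (e * e)‖ ≤ 1 := (h1 _).trans ((norm_mul_le _ _).trans (by nlinarith [norm_nonneg e]))
    nlinarith
  have e4 : S ≤ ‖f.toPreGNS (rowE ξ e)‖ * ‖f.toPreGNS a‖ := by
    have := norm_inner_le_norm (𝕜 := ℂ) (f.toPreGNS (rowE ξ e)) (f.toPreGNS a)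
    rw [hin, e1, Complex.norm_real, Real.norm_of_nonneg hS0] at this
    exact this
  have e5 : ‖f.toPreGNS a‖ ^ 2 = (fn φ (star a * a)).re := by
    rw [← inner_self_eq_norm_sq (𝕜 := ℂ), hin]
    rfl
  rw [← e5]
  have e6 : S ^ 2 ≤ S * ‖f.toPreGNS a‖ ^ 2 := by
    calc S ^ 2 ≤ (‖f.toPreGNS (rowE ξ e)‖ * ‖f.toPreGNS a‖) ^ 2 := by gcongr
      _ = ‖f.toPreGNS (rowE ξ e)‖ ^ 2 * ‖f.toPreGNS a‖ ^ 2 := by ring
      _ ≤ _ := by gcongr
  rcases hS0.eq_or_lt with h0 | h0
  · rw [← h0]; positivity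
  · nlinarith

theorem rowv_bound (φ : D →ₗ[ℂ] CStarMatrix (Fin (n + 1)) (Fin (n + 1)) ℂ) (hφ : IsCP φ)
    (h1 : ∀ x, ‖φ x‖ ≤ ‖x‖) (a : CStarMatrix (Fin (n + 1)) (Fin (n + 1)) D) :
    ∑ k, ‖rowv φ a k‖ ^ 2 ≤ (fn φ (star a * a)).re := by
  let _ : PartialOrder D := CStarAlgebra.spectralOrder D
  have _ : StarOrderedRing D := CStarAlgebra.spectralOrderedRing D
  have hu := CStarAlgebra.increasingApproximateUnit D
  have hne : (CStarAlgebra.approximateUnit D).NeBot := hu.neBot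
  have hl : Tendsto (fun e => ∑ k, ‖∑ j, φ (e * a 0 j) k j‖ ^ 2) (CStarAlgebra.approximateUnit D)
      (𝓝 (∑ k, ‖rowv φ a k‖ ^ 2)) := by
    refine tendsto_finsetSum _ fun k _ => ((tendsto_finsetSum _ fun j _ => ?_).norm).pow 2
    exact ((phi_entry_cont φ h1 k j).tendsto _).comp (hu.tendsto_mul_right (a 0 j))
  refine le_of_tendsto hl ?_
  filter_upwards [hu.eventually_star_eq, hu.eventually_norm] with e he he1
  exact rowv_bound' φ hφ h1 a e he he1

end

theorem rowv_ent {D : Type} [NonUnitalCStarAlgebra D] {n : ℕ}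
    (φ : D →ₗ[ℂ] CStarMatrix (Fin (n + 1)) (Fin (n + 1)) ℂ) (d : D) (i j : Fin (n + 1)) :
    rowv φ (ent d j) i = φ d i j := by
  rw [rowv, Finset.sum_eq_single j]
  · rw [ent_apply, if_pos rfl, if_pos rfl]
  · intro b _ hb
    rw [ent_apply, if_pos rfl, if_neg hb, map_zero, CStarMatrix.zero_apply]
  · simp

theorem conj_rowv {D : Type} [NonUnitalCStarAlgebra D] {n : ℕ}
    (φ : D →ₗ[ℂ] CStarMatrix (Fin (n + 1)) (Fin (n + 1)) ℂ) (hφ : IsCP φ)
    (h1 : ∀ x, ‖φ x‖ ≤ ‖x‖) (a : CStarMatrix (Fin (n + 1)) (Fin (n + 1)) D) (d : D)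
    (j : Fin (n + 1)) :
    star (rowv φ (corner (star d) * a) j) = fn φ (star a * ent d j) := by
  have e1 : ∀ l, (corner (star d) * a : CStarMatrix (Fin (n + 1)) (Fin (n + 1)) D) 0 l
      = star d * a 0 l := by
    intro l
    rw [CStarMatrix.mul_apply, Finset.sum_eq_single 0]
    · change ent (star d) 0 0 0 * _ = _
      rw [ent_apply]; simp
    · intro b _ hb
      change ent (star d) 0 0 b * _ = _
      rw [ent_apply, if_pos rfl, if_neg hb, zero_mul]
    · simp
  have e2 : ∀ i l, (star a * ent d j) i l = if l = j then star (a 0 i) * d else 0 := by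
    intro i l
    rw [CStarMatrix.mul_apply, Finset.sum_eq_single 0]
    · rw [CStarMatrix.star_apply, ent_apply, if_pos rfl]
      split_ifs <;> simp
    · intro b _ hb
      rw [ent_apply, if_neg hb, mul_zero]
    · simp
  rw [fn_apply, rowv, star_sum]
  refine Finset.sum_congr rfl fun i _ => ?_
  rw [Finset.sum_eq_single j]
  · rw [e1, e2, if_pos rfl]
    have h2 : star (a 0 i) * d = star (star d * a 0 i) := by rw [star_mul, star_star]
    rw [h2, phi_star φ hφ h1, CStarMatrix.star_apply]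
  · intro b _ hb
    rw [e2, if_neg hb, map_zero, CStarMatrix.zero_apply]
  · simp

/-- Stinespring dilation, positive size -/
theorem stine_succ (D : Type) [NonUnitalCStarAlgebra D] (n : ℕ)
    (φ : D →ₗ[ℂ] CStarMatrix (Fin (n + 1)) (Fin (n + 1)) ℂ) (hφ : IsCP φ)
    (h1 : ∀ x, ‖φ x‖ ≤ ‖x‖) :
    ∃ (H : Type) (_ : NormedAddCommGroup H) (_ : InnerProductSpace ℂ H) (_ : CompleteSpace H)
      (π : D →⋆ₙₐ[ℂ] (H →L[ℂ] H)) (W : EuclideanSpace ℂ (Fin (n + 1)) →L[ℂ] H), ‖W‖ ≤ 1 ∧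
      ∀ d i j, φ d i j = inner ℂ (W (EuclideanSpace.single i 1))
        (π d (W (EuclideanSpace.single j 1))) := by
  let _ : PartialOrder D := CStarAlgebra.spectralOrder D
  have _ : StarOrderedRing D := CStarAlgebra.spectralOrderedRing D
  let f := fp φ hφ
  have hin : ∀ x y, (inner ℂ (f.toPreGNS x) (f.toPreGNS y) : ℂ) = fn φ (star x * y) :=
    fun x y => rfl
  have hnorm : ∀ a, ‖f.toPreGNS a‖ ^ 2 = (fn φ (star a * a)).re := by
    intro a
    rw [← inner_self_eq_norm_sq (𝕜 := ℂ), hin]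
    rfl
  let T0 : f.PreGNS →L[ℂ] EuclideanSpace ℂ (Fin (n + 1)) :=
    LinearMap.mkContinuous
      { toFun := fun a => WithLp.toLp 2 (rowv φ (f.ofPreGNS a))
        map_add' := by
          intro x y
          ext k
          simp [rowv, Finset.sum_add_distrib]
        map_smul' := by
          intro r x
          ext k
          simp [rowv, Finset.mul_sum] } 1 (by
      intro a
      rw [one_mul]
      refine abs_le_of_sq_le_sq' ?_ (norm_nonneg _) |>.2
      rw [LinearMap.coe_mk, AddHom.coe_mk, EuclideanSpace.norm_sq_eq]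
      have h2 := hnorm (f.ofPreGNS a)
      rw [f.toPreGNS_ofPreGNS] at h2
      rw [h2]
      exact rowv_bound φ hφ h1 _)
  have hT0 : ∀ a, T0 (f.toPreGNS a) = WithLp.toLp 2 (rowv φ a) := fun a => rfl
  have hT0n : ‖T0‖ ≤ 1 := LinearMap.mkContinuous_norm_le _ zero_le_one _
  have hdense : DenseRange (UniformSpace.Completion.toComplL : f.PreGNS →L[ℂ] f.GNS) :=
    UniformSpace.Completion.denseRange_coe
  have hui : IsUniformInducing (UniformSpace.Completion.toComplL : f.PreGNS →L[ℂ] f.GNS) :=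
    UniformSpace.Completion.isUniformInducing_coe _
  let T : f.GNS →L[ℂ] EuclideanSpace ℂ (Fin (n + 1)) :=
    T0.extend UniformSpace.Completion.toComplL
  have hT : ∀ a : f.PreGNS, T (a : f.GNS) = T0 a := fun a => T0.extend_eq hdense hui a
  have hTn : ‖T‖ ≤ 1 := by
    refine T.opNorm_le_bound zero_le_one fun x => ?_
    induction x using UniformSpace.Completion.induction_on with
    | hp => exact isClosed_le (by fun_prop) (by fun_prop)
    | ih a =>
      rw [hT, UniformSpace.Completion.norm_coe]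
      exact (T0.le_opNorm a).trans (by gcongr)
  let W : EuclideanSpace ℂ (Fin (n + 1)) →L[ℂ] f.GNS := ContinuousLinearMap.adjoint T
  let π : D →⋆ₙₐ[ℂ] (f.GNS →L[ℂ] f.GNS) := f.gnsNonUnitalStarAlgHom.comp corner
  have hW : ∀ j (x : f.GNS), (inner ℂ (W (EuclideanSpace.single j 1)) x : ℂ) = T x j := by
    intro j x
    rw [ContinuousLinearMap.adjoint_inner_left, EuclideanSpace.inner_single_left]
    simp
  have hπ : ∀ d (a : CStarMatrix (Fin (n + 1)) (Fin (n + 1)) D),
      π d ((f.toPreGNS a : f.PreGNS) : f.GNS) = ((f.toPreGNS (corner d * a) : f.PreGNS) : f.GNS) := by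
    intro d a
    rw [NonUnitalStarAlgHom.comp_apply, f.gnsNonUnitalStarAlgHom_apply_coe]
    rfl
  have key : ∀ d j, π d (W (EuclideanSpace.single j 1))
      = ((f.toPreGNS (ent d j) : f.PreGNS) : f.GNS) := by
    intro d j
    refine ext_inner_left ℂ fun x => ?_
    induction x using UniformSpace.Completion.induction_on with
    | hp => exact isClosed_eq (by fun_prop) (by fun_prop)
    | ih a =>
      obtain ⟨a, rfl⟩ := f.toPreGNS.surjective a
      rw [UniformSpace.Completion.inner_coe, hin]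
      have e1 : (inner ℂ ((f.toPreGNS a : f.PreGNS) : f.GNS)
          (π d (W (EuclideanSpace.single j 1))) : ℂ)
          = inner ℂ (π (star d) ((f.toPreGNS a : f.PreGNS) : f.GNS))
            (W (EuclideanSpace.single j 1)) := by
        rw [map_star, ContinuousLinearMap.star_eq_adjoint,
          ContinuousLinearMap.adjoint_inner_left]
      rw [e1, ← inner_conj_symm, hW, hπ, hT, hT0]
      exact conj_rowv φ hφ h1 a d j
  refine ⟨f.GNS, inferInstance, inferInstance, inferInstance, π, W, ?_, ?_⟩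
  · rw [LinearIsometryEquiv.norm_map]
    exact hTn
  · intro d i j
    rw [key, hW, hT, hT0]
    exact (rowv_ent φ d i j).symm

open Pool.Agent.Helper61.CAR in
theorem stine : S_STINE := by
  intro D _ m φ hφ h1
  rcases Nat.eq_zero_or_pos m with rfl | hm
  · exact ⟨ℂ, inferInstance, inferInstance, inferInstance, 0, fun i => i.elim0,
      fun z => by simp, fun d i => i.elim0⟩
  obtain ⟨k, rfl⟩ := Nat.exists_eq_succ_of_ne_zero hm.ne'
  obtain ⟨H, i1, i2, i3, π, W, hW, hπ⟩ := stine_succ D k φ hφ h1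
  refine ⟨H, i1, i2, i3, π, fun i => W (EuclideanSpace.single i 1), ?_, fun d i j => hπ d i j⟩
  intro z
  have e1 : ∑ i, z i • W (EuclideanSpace.single i 1) = W (WithLp.toLp 2 z) := by
    have e2 : (WithLp.toLp 2 z : EuclideanSpace ℂ (Fin (k + 1)))
        = ∑ i, z i • EuclideanSpace.single i (1 : ℂ) := by
      ext l
      rw [WithLp.ofLp_sum, Finset.sum_apply]
      simp [Pi.single_apply]
    rw [e2, map_sum]
    simp
  rw [e1]
  have e3 := W.le_opNorm (WithLp.toLp 2 z)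
  have e4 : ‖(WithLp.toLp 2 z : EuclideanSpace ℂ (Fin (k + 1)))‖ ^ 2 = ∑ i, ‖z i‖ ^ 2 := by
    rw [EuclideanSpace.norm_sq_eq]
  rw [← e4]
  have e5 : ‖W (WithLp.toLp 2 z)‖ ≤ ‖(WithLp.toLp 2 z : EuclideanSpace ℂ (Fin (k + 1)))‖ :=
    e3.trans (by nlinarith [norm_nonneg (WithLp.toLp 2 z : EuclideanSpace ℂ (Fin (k + 1)))])
  gcongr

end Pool.Agent.Helper44.CAR
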