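import Mathlib
import Pool.Agent.Helper39.CR.GoalsT

/-! CAR stage 3, ALG6, ALGM and ALGN: the inverse systems `(G^(ℤ/n), 1 - shift)`. -/

namespace Pool.Agent.Helper44.CAR

open Pool.Agent.Helper39.CR Finset Polynomial

section
variable {n : ℕ} {G : Type} [AddCommGroup G]

/-- the shift -/
def Xe (n : ℕ) (G : Type) [AddCommGroup G] : AddMonoid.End (ZMod n → G) where
  toFun y j := y (j + 1)
  map_zero' := rfl
  map_add' _ _ := rfl

theorem Xe_apply (y : ZMod n → G) (j : ZMod n) : Xe n G y j = y (j + 1) := rfl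

theorem Xe_pow (k : ℕ) (y : ZMod n → G) (j : ZMod n) : (Xe n G ^ k) y j = y (j + k) := by
  induction k generalizing y j with
  | zero => simp
  | succ k ih =>
    rw [pow_succ]
    change (Xe n G ^ k) (Xe n G y) j = _
    rw [ih, Xe_apply]
    congr 1
    push_cast
    ring

/-- the action of polynomials -/
noncomputable def act (p : ℤ[X]) : AddMonoid.End (ZMod n → G) := aeval (Xe n G) p

theorem act_mul (p q : ℤ[X]) (y : ZMod n → G) : act (p * q) y = act p (act q y) := by
  rw [act, map_mul]; rfl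

theorem act_add (p q : ℤ[X]) (y : ZMod n → G) : act (p + q) y = act p y + act q y := by
  rw [act, map_add]; rfl

theorem act_sub (p q : ℤ[X]) (y : ZMod n → G) : act (p - q) y = act p y - act q y := by
  rw [act, map_sub]; rfl

theorem act_neg (p : ℤ[X]) (y : ZMod n → G) : act (-p) y = -act p y := by
  rw [act, map_neg]; rfl

theorem act_one (y : ZMod n → G) : act (1 : ℤ[X]) y = y := by
  rw [act, map_one]; rfl

theorem act_zero (y : ZMod n → G) : act (0 : ℤ[X]) y = 0 := by
  rw [act, map_zero]; rfl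

theorem act_X (y : ZMod n → G) : act (X : ℤ[X]) y = Xe n G y := by
  rw [act, aeval_X]

theorem act_X_pow (k : ℕ) (y : ZMod n → G) (j : ZMod n) :
    act (X ^ k : ℤ[X]) y j = y (j + k) := by
  rw [act, map_pow, aeval_X, Xe_pow]

theorem act_intCast (a : ℤ) (y : ZMod n → G) : act ((a : ℤ) : ℤ[X]) y = a • y := by
  rw [act, map_intCast]
  rfl

theorem act_natCast (a : ℕ) (y : ZMod n → G) : act ((a : ℕ) : ℤ[X]) y = a • y := by
  rw [act, map_natCast]
  rfl

theorem act_sum {ι : Type} (s : Finset ι) (p : ι → ℤ[X]) (y : ZMod n → G) :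
    act (∑ i ∈ s, p i) y = ∑ i ∈ s, act (p i) y := by
  classical
  induction s using Finset.induction_on with
  | empty => rw [sum_empty, sum_empty, act_zero]
  | insert a s ha ih => rw [sum_insert ha, sum_insert ha, act_add, ih]

/-- `1 - X` -/
noncomputable def Tp : ℤ[X] := 1 - X

theorem act_Tp (y : ZMod n → G) (j : ZMod n) : act Tp y j = y j - y (j + 1) := by
  rw [Tp, act_sub, act_one, act_X]; rfl

theorem LL_fst (h : LL n G) (y : ℕ → ZMod n → G) (hy : ∀ k, act Tp (y (k + 1)) = y k) (k : ℕ) :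
    y k = 0 := by
  funext j
  refine h.1 y (fun k j => ?_) k j
  rw [← act_Tp, hy]

theorem LL_snd (h : LL n G) (z : ℕ → ZMod n → G) :
    ∃ t : ℕ → ZMod n → G, ∀ k, z k = t k - act Tp (t (k + 1)) := by
  obtain ⟨t, ht⟩ := h.2 z
  refine ⟨t, fun k => ?_⟩
  funext j
  rw [Pi.sub_apply, act_Tp, ht]

/-- the norm element -/
noncomputable def Np (n : ℕ) : ℤ[X] := ∑ k ∈ range n, X ^ k

/-- the homotopy -/
noncomputable def Hp (n : ℕ) : ℤ[X] := ∑ k ∈ range n, ∑ l ∈ range k, X ^ l

theorem Tp_Hp (n : ℕ) : Tp * Hp n = (n : ℤ[X]) - Np n := by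
  rw [Tp, Hp, Np, mul_sum]
  have : ∀ k, (1 - X : ℤ[X]) * ∑ l ∈ range k, X ^ l = 1 - X ^ k := fun k => mul_neg_geom_sum X k
  simp_rw [this]
  rw [sum_sub_distrib]
  simp

theorem act_Np [NeZero n] (y : ZMod n → G) (j : ZMod n) : act (Np n) y j = ∑ i, y i := by
  rw [Np, act_sum, Finset.sum_apply]
  simp_rw [act_X_pow]
  rw [← Fintype.sum_equiv (Equiv.addLeft j) (fun i => y (j + i)) y fun _ => rfl]
  refine sum_nbij' (fun k : ℕ => (k : ZMod n)) ZMod.val (fun k _ => mem_univ _)
    (fun i _ => mem_range.2 (ZMod.val_lt i)) (fun k hk => ?_) (fun i _ => ?_) (fun k _ => rfl)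
  · exact ZMod.val_cast_of_lt (mem_range.1 hk)
  · exact ZMod.natCast_zmod_val i

theorem act_Np_eq_zero [NeZero n] (y : ZMod n → G) : act (Np n) y = 0 ↔ ∑ i, y i = 0 := by
  constructor
  · intro h
    rw [← act_Np y 0, h]; rfl
  · intro h
    funext j
    rw [act_Np, h]; rfl

theorem act_comm (p q : ℤ[X]) (y : ZMod n → G) : act p (act q y) = act q (act p y) := by
  rw [← act_mul, ← act_mul, mul_comm]

theorem act_XN (y : ZMod n → G) : act (X ^ n - 1 : ℤ[X]) y = 0 := by
  rw [act_sub, act_one]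
  funext j
  rw [Pi.sub_apply, act_X_pow]
  simp

theorem Np_Tp : Np n * Tp = 1 - X ^ n := by
  rw [mul_comm, Np, Tp]
  exact mul_neg_geom_sum X n

theorem act_Np_Tp (y : ZMod n → G) : act (Np n) (act Tp y) = 0 := by
  rw [← act_mul, Np_Tp, show (1 - X ^ n : ℤ[X]) = -(X ^ n - 1) by ring, act_neg, act_XN, neg_zero]

/-- on the sum zero functions `T H = n` -/
theorem act_TH (y : ZMod n → G) (hy : act (Np n) y = 0) :
    act Tp (act (Hp n) y) = n • y := by
  rw [← act_mul, Tp_Hp, act_sub, act_natCast, hy, sub_zero]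

theorem exists_T [NeZero n] (y : ZMod n → G) (hy : act (Np n) y = 0) :
    ∃ m, act Tp m = y := by
  rw [act_Np_eq_zero] at hy
  refine ⟨fun j => -∑ l ∈ range j.val, y l, ?_⟩
  funext j
  rw [act_Tp]
  have hn : 0 < n := Nat.pos_of_ne_zero (NeZero.ne n)
  have hj : ((j.val : ℕ) : ZMod n) = j := ZMod.natCast_zmod_val j
  by_cases h : j.val + 1 < n
  · have h1 : (j + 1).val = j.val + 1 := by
      conv_lhs => rw [← hj, ← Nat.cast_one, ← Nat.cast_add]
      exact ZMod.val_cast_of_lt h
    rw [h1, sum_range_succ, hj]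
    abel
  · have h2 : j.val + 1 = n := by
      have := ZMod.val_lt j
      omega
    have h3 : j + 1 = 0 := by
      conv_lhs => rw [← hj, ← Nat.cast_one, ← Nat.cast_add, h2]
      simp
    have h4 : ∑ l ∈ range (j.val + 1), y l = 0 := by
      rw [h2, ← hy]
      refine sum_nbij' (fun k : ℕ => (k : ZMod n)) ZMod.val (fun k _ => mem_univ _)
        (fun i _ => mem_range.2 (ZMod.val_lt i)) (fun k hk => ?_) (fun i _ => ?_) (fun k _ => rfl)
      · exact ZMod.val_cast_of_lt (mem_range.1 hk)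
      · exact ZMod.natCast_zmod_val i
    rw [sum_range_succ, hj] at h4
    rw [h3, ZMod.val_zero]
    simp only [range_zero, sum_empty, neg_zero, sub_zero]
    exact neg_eq_of_add_eq_zero_right h4

/-- solutions of the system inside the sum zero functions -/
theorem exists_sol [NeZero n] (h : LL n G) (z : ℕ → ZMod n → G)
    (hz : ∀ k, act (Np n) (z k) = 0) :
    ∃ t : ℕ → ZMod n → G, (∀ k, act (Np n) (t k) = 0) ∧
      ∀ k, z k = t k - act Tp (t (k + 1)) := by
  choose m hm using fun k => exists_T (z k) (hz k)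
  obtain ⟨t, ht⟩ := LL_snd h m
  refine ⟨fun k => act Tp (t k), fun k => act_Np_Tp _, fun k => ?_⟩
  rw [← hm k, ht k, map_sub]

theorem smul_bij_aux [NeZero n] (h : LL n G) (m : ℕ) (hm : n.Coprime m) (y : ZMod n → G)
    (hy : act (Np n) y = 0) :
    (∃ y', act (Np n) y' = 0 ∧ y = m • y') ∧ (m • y = 0 → y = 0) := by
  obtain ⟨a, b, hab⟩ : ∃ a b : ℤ, a * m = 1 + b * n := by
    have h1 := Nat.isCoprime_iff_coprime.2 hm
    obtain ⟨u, v, huv⟩ := h1
    exact ⟨v, -u, by linear_combination huv⟩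
  -- the polynomial `-b H`
  set q : ℤ[X] := -((b : ℤ[X]) * Hp n) with hq
  have hN : ∀ (p : ℤ[X]) (w : ZMod n → G), act (Np n) w = 0 → act (Np n) (act p w) = 0 := by
    intro p w hw
    rw [act_comm, hw, map_zero]
  have hTq : ∀ w : ZMod n → G, act (Np n) w = 0 → act Tp (act q w) = -((b * n : ℤ) • w) := by
    intro w hw
    rw [hq, act_neg, map_neg, act_mul, act_intCast, map_zsmul, act_TH w hw, ← natCast_zsmul,
      smul_smul]
  constructor
  · obtain ⟨u, hu1, hu2⟩ := exists_sol h (fun k => act (q ^ k) y) fun k => hN _ _ hy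
    have hv : ∀ k, u (k + 1) - act q (u k) = 0 := by
      refine LL_fst h (fun k => u (k + 1) - act q (u k)) fun k => ?_
      have e1 := hu2 (k + 1)
      have e2 := hu2 k
      rw [map_sub]
      have e3 : act Tp (u (k + 1 + 1)) = u (k + 1) - act (q ^ (k + 1)) y := by
        rw [e1]; abel
      have e4 : act Tp (act q (u (k + 1))) = act q (u k) - act (q ^ (k + 1)) y := by
        rw [act_comm, pow_succ', act_mul, ← map_sub, e2]
        congr 1
        abel
      rw [e3, e4]
      abel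
    have h0 := hu2 0
    rw [pow_zero, act_one, sub_eq_zero.1 (hv 0), hTq _ (hu1 0)] at h0
    refine ⟨a • u 0, ?_, ?_⟩
    · rw [map_zsmul, hu1, smul_zero]
    · rw [h0, ← natCast_zsmul, smul_smul, mul_comm (m : ℤ), hab, add_smul, one_smul, sub_neg_eq_add]
  · intro hmy
    have e1 : y = act Tp (act q y) := by
      rw [hTq y hy]
      have e2 : (a * m : ℤ) • y = 0 := by
        rw [← smul_smul, natCast_zsmul, hmy, smul_zero]
      rw [hab, add_smul, one_smul] at e2
      exact eq_neg_of_add_eq_zero_left e2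
    have e3 := LL_fst h (fun k => act (q ^ k) y) (fun k => by
      rw [pow_succ, act_mul, act_comm Tp, ← e1]) 0
    rwa [pow_zero, act_one] at e3

/-- `g` at `0`, `-g` at `1` -/
def dl (n : ℕ) (g : G) : ZMod n → G := Pi.single 0 g - Pi.single 1 g

theorem dl_Np [NeZero n] (g : G) : act (Np n) (dl n g) = 0 := by
  rw [act_Np_eq_zero, dl]
  simp only [Pi.sub_apply, sum_sub_distrib]
  rw [Fintype.sum_pi_single', Fintype.sum_pi_single', sub_self]

theorem dl_zero (hn : 2 ≤ n) (g : G) : dl n g 0 = g := by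
  have : Fact (1 < n) := ⟨hn⟩
  rw [dl, Pi.sub_apply, Pi.single_eq_same, Pi.single_eq_of_ne (zero_ne_one), sub_zero]

end

theorem algm : S_ALGM := by
  intro n hn G _ h m hm
  have : NeZero n := ⟨by omega⟩
  constructor
  · intro g g' hgg'
    have e0 : m • (g - g') = 0 := by
      rw [smul_sub]
      exact sub_eq_zero.2 hgg'
    have e1 : m • dl n (g - g') = 0 := by
      rw [dl, smul_sub, ← Pi.single_smul, ← Pi.single_smul, e0]
      simp
    have e2 := (smul_bij_aux h m hm (dl n (g - g')) (dl_Np _)).2 e1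
    have e3 := dl_zero hn (g - g')
    rw [e2] at e3
    exact sub_eq_zero.1 e3.symm
  · intro g
    obtain ⟨y', -, hy'⟩ := (smul_bij_aux h m hm (dl n g) (dl_Np g)).1
    refine ⟨y' 0, ?_⟩
    have := congrFun hy' 0
    rw [dl_zero hn] at this
    exact this.symm

theorem algn : S_ALGN := by
  intro n hn G _ h hbij g
  have : NeZero n := ⟨by omega⟩
  have hT : ∀ y : ZMod n → G, act (Np n) y = 0 → ∃ w, act (Np n) w = 0 ∧ act Tp w = y := by
    intro y hy
    choose y' hy' using fun j => hbij.2 (y j)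
    have e0 : y = n • y' := by
      funext j
      exact (hy' j).symm
    have e1 : act (Np n) y' = 0 := by
      rw [act_Np_eq_zero] at hy ⊢
      apply hbij.1
      change n • ∑ i, y' i = n • 0
      rw [smul_zero, smul_sum, ← hy, e0]
      rfl
    refine ⟨act (Hp n) y', ?_, ?_⟩
    · rw [act_comm, e1, map_zero]
    · rw [act_TH y' e1, ← e0]
  have hM : ∀ y : ZMod n → G, act (Np n) y = 0 → y = 0 := by
    intro y hy
    let Mt' := {w : ZMod n → G // act (Np n) w = 0}
    let nx : Mt' → Mt' := fun w => ⟨(hT w.1 w.2).choose, (hT w.1 w.2).choose_spec.1⟩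
    have hnx : ∀ w, act Tp (nx w).1 = w.1 := fun w => (hT w.1 w.2).choose_spec.2
    have e3 := LL_fst h (fun k => (nx^[k] ⟨y, hy⟩).1) (fun k => by
      rw [Function.iterate_succ_apply', hnx]) 0
    exact e3
  rw [← dl_zero hn g, hM _ (dl_Np g)]
  rfl

theorem alg6 : S_ALG6 := by
  intro n hn0 hn1 hpp G _ h g
  have : NeZero n := ⟨hn0⟩
  -- the factorisation
  obtain ⟨U, hU⟩ : ∃ U : ℤ[X], 1 - cyclotomic n ℤ = Tp * U := by
    have h1 : (X - C (1 : ℤ)) ∣ 1 - cyclotomic n ℤ := by
      rw [dvd_iff_isRoot, IsRoot.def, eval_sub, eval_one,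
        eval_one_cyclotomic_not_prime_pow (fun {p} hp k hk => ?_), sub_self]
      refine hpp (hk ▸ hp.isPrimePow.pow ?_)
      rintro rfl
      exact hn1 (by rw [← hk, pow_zero])
    obtain ⟨V, hV⟩ := h1
    refine ⟨-V, ?_⟩
    rw [hV, Tp, C_1]
    ring
  set N : ℤ[X] := ∏ d ∈ n.properDivisors, cyclotomic d ℤ with hN
  have hNm : N.Monic := monic_prod_of_monic _ _ fun d _ => cyclotomic.monic d ℤ
  have hNX : cyclotomic n ℤ * N = X ^ n - 1 := by
    rw [← prod_cyclotomic_eq_X_pow_sub_one (Nat.pos_of_ne_zero hn0) ℤ,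
      ← Nat.cons_self_properDivisors hn0, prod_cons]
  have hdeg : N.natDegree < n := by
    have h1 := congrArg natDegree hNX
    rw [(cyclotomic.monic n ℤ).natDegree_mul hNm, natDegree_cyclotomic,
      ← C_1, natDegree_X_pow_sub_C] at h1
    have h2 := Nat.totient_pos.2 (Nat.pos_of_ne_zero hn0)
    omega
  have e0 := LL_fst h (fun k => act (U ^ k * N) (Pi.single 0 g)) (fun k => by
    rw [← act_mul, pow_succ', show Tp * (U * U ^ k * N) = (1 - cyclotomic n ℤ) * (U ^ k * N) by
      rw [hU]; ring, sub_mul, one_mul, act_sub, show cyclotomic n ℤ * (U ^ k * N) =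
      U ^ k * (cyclotomic n ℤ * N) by ring, hNX, act_mul (U ^ k) (X ^ n - 1), act_XN, map_zero,
      sub_zero]) 0
  rw [pow_zero, one_mul] at e0
  have e1 := congrFun e0 (-(N.natDegree : ZMod n))
  have e2 : act N (Pi.single 0 g : ZMod n → G) = ∑ i ∈ range (N.natDegree + 1),
      act (C (N.coeff i) * X ^ i) (Pi.single 0 g : ZMod n → G) := by
    rw [← act_sum, ← N.as_sum_range_C_mul_X_pow]
  rw [e2, Finset.sum_apply, Finset.sum_eq_single N.natDegree] at e1
  · rw [hNm.coeff_natDegree, C_1, one_mul, act_X_pow, neg_add_cancel, Pi.single_eq_same] at e1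
    exact e1
  · intro b hb hb'
    rw [act_mul, show (C (N.coeff b) : ℤ[X]) = ((N.coeff b : ℤ) : ℤ[X]) from eq_intCast _ _,
      act_intCast, Pi.smul_apply, act_X_pow, Pi.single_eq_of_ne, smul_zero]
    intro h1
    rw [neg_add_eq_zero, ZMod.natCast_eq_natCast_iff', Nat.mod_eq_of_lt hdeg, Nat.mod_eq_of_lt] at h1
    · exact hb' h1.symm
    · have := mem_range.1 hb
      omega
  · intro hb
    exact absurd (mem_range.2 (Nat.lt_succ_self _)) hb

end Pool.Agent.Helper44.CAR
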