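import Pool.Agent.Helper39.CR.GoalsS

/-! CAR stage 3, CTR: the CAR algebra has a tracial state. -/

open scoped ComplexOrder ZeroAtInfty Topology DirectSum
open TopologicalSpace

namespace Pool.Agent.Helper44.CAR

open Pool.Agent.Helper34.CAR Pool.Agent.Helper39.CR

noncomputable section

/-- the normalised trace -/
def nt (N : ℕ) : CStarMatrix (Fin N) (Fin N) ℂ →ₗ[ℂ] ℂ where
  toFun a := (N : ℂ)⁻¹ * ∑ i, a i i
  map_add' a b := by
    simp only [CStarMatrix.add_apply, Finset.sum_add_distrib, mul_add]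
  map_smul' c a := by
    simp only [CStarMatrix.smul_apply, smul_eq_mul, RingHom.id_apply, ← Finset.mul_sum]
    ring

theorem nt_apply (N : ℕ) (a : CStarMatrix (Fin N) (Fin N) ℂ) :
    nt N a = (N : ℂ)⁻¹ * ∑ i, a i i := rfl

theorem tr_unique {N : ℕ} (hN : 0 < N) (F : CStarMatrix (Fin N) (Fin N) ℂ →ₗ[ℂ] ℂ)
    (h : ∀ a b, F (a * b) = F (b * a)) (h1 : F 1 = 1) (a : CStarMatrix (Fin N) (Fin N) ℂ) :
    F a = nt N a := by
  let G : Matrix (Fin N) (Fin N) ℂ →ₗ[ℂ] ℂ :=
    { toFun := fun m => F (CStarMatrix.ofMatrix m)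
      map_add' := fun a b => F.map_add (CStarMatrix.ofMatrix a) (CStarMatrix.ofMatrix b)
      map_smul' := fun c a => F.map_smul c (CStarMatrix.ofMatrix a) }
  have hG : ∀ a b, G (a * b) = G (b * a) := fun a b =>
    h (CStarMatrix.ofMatrix a) (CStarMatrix.ofMatrix b)
  have hG1 : G 1 = 1 := h1
  have e1 : ∀ i j, i ≠ j → ∀ c, G (Matrix.single i j c) = 0 := by
    intro i j hij c
    have h2 := hG (Matrix.single i i 1) (Matrix.single i j c)
    rw [Matrix.single_mul_single_same, one_mul,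
      Matrix.single_mul_single_of_ne (h := hij.symm), map_zero] at h2
    exact h2
  have e2 : ∀ i j, G (Matrix.single i i 1) = G (Matrix.single j j 1) := by
    intro i j
    have h2 := hG (Matrix.single i j 1) (Matrix.single j i 1)
    rwa [Matrix.single_mul_single_same, Matrix.single_mul_single_same, one_mul] at h2
  have e3 : ∀ (m : Matrix (Fin N) (Fin N) ℂ), G m = (∑ i, m i i) * G (Matrix.single ⟨0, hN⟩ ⟨0, hN⟩ 1) := by
    intro m
    conv_lhs => rw [Matrix.matrix_eq_sum_single m]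
    rw [map_sum, Finset.sum_mul]
    refine Finset.sum_congr rfl fun i _ => ?_
    rw [map_sum, Finset.sum_eq_single i]
    · rw [← e2 i ⟨0, hN⟩, ← smul_eq_mul, ← map_smul, Matrix.smul_single, smul_eq_mul, mul_one]
    · intro j _ hj
      exact e1 i j hj.symm _
    · intro h
      exact absurd (Finset.mem_univ _) h
  have e4 : (N : ℂ) * G (Matrix.single ⟨0, hN⟩ ⟨0, hN⟩ 1) = 1 := by
    have h2 := e3 1
    have hs : ∑ i : Fin N, (1 : Matrix (Fin N) (Fin N) ℂ) i i = N := by simp
    rw [hG1, hs] at h2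
    exact h2.symm
  have e5 : F a = G (CStarMatrix.ofMatrix.symm a) := rfl
  rw [e5, e3, nt_apply, mul_comm, ← eq_inv_of_mul_eq_one_right e4]
  rfl

theorem nt_norm (N : ℕ) (hN : 0 < N) (a : CStarMatrix (Fin N) (Fin N) ℂ) : ‖nt N a‖ ≤ ‖a‖ := by
  rw [nt_apply, norm_mul, norm_inv, Complex.norm_natCast]
  have h1 : ‖∑ i, a i i‖ ≤ N * ‖a‖ := by
    refine (norm_sum_le _ _).trans ?_
    refine (Finset.sum_le_sum fun i _ => CStarMatrix.norm_entry_le_norm).trans ?_
    rw [Finset.sum_const, Finset.card_univ, Fintype.card_fin, nsmul_eq_mul]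
  have h2 : (0 : ℝ) < N := by exact_mod_cast hN
  rw [inv_mul_le_iff₀ h2]
  exact h1

theorem nt_tr (N : ℕ) (a b : CStarMatrix (Fin N) (Fin N) ℂ) : nt N (a * b) = nt N (b * a) := by
  rw [nt_apply, nt_apply]
  congr 1
  exact Matrix.trace_mul_comm (CStarMatrix.ofMatrix.symm a) (CStarMatrix.ofMatrix.symm b)

theorem nt_one (N : ℕ) (hN : 0 < N) : nt N 1 = 1 := by
  rw [nt_apply]
  have h1 : ∀ i : Fin N, (1 : CStarMatrix (Fin N) (Fin N) ℂ) i i = 1 := fun i => by
    rw [CStarMatrix.one_apply, if_pos rfl]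
  simp_rw [h1]
  rw [Finset.sum_const, Finset.card_univ, Fintype.card_fin, nsmul_eq_mul, mul_one, inv_mul_cancel₀]
  exact_mod_cast hN.ne'

theorem nt_pos (N : ℕ) (a : CStarMatrix (Fin N) (Fin N) ℂ) : 0 ≤ nt N (star a * a) := by
  rw [nt_apply]
  refine mul_nonneg ?_ (Finset.sum_nonneg fun i _ => ?_)
  · rw [← Complex.ofReal_natCast, ← Complex.ofReal_inv]
    exact_mod_cast inv_nonneg.2 (Nat.cast_nonneg N)
  · rw [CStarMatrix.mul_apply]
    refine Finset.sum_nonneg fun j _ => ?_
    rw [CStarMatrix.star_apply]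
    exact star_mul_self_nonneg _

theorem ctr : S_CTR := by
  intro A _ ⟨e, j, he, hinj, hsub, hd⟩
  have hN : ∀ i, 0 < 2 ^ e i := fun i => by positivity
  -- one step
  have step : ∀ i y, ∃ y', j (i + 1) y' = j i y ∧ nt _ y' = nt _ y := by
    intro i
    choose φ hφ using fun y => hsub i ⟨y, rfl⟩
    let F : CStarMatrix (Fin (2 ^ e i)) (Fin (2 ^ e i)) ℂ →ₗ[ℂ] ℂ :=
      { toFun := fun y => nt _ (φ y)
        map_add' := fun a b => by
          rw [← map_add]
          congr 1
          apply hinj (i + 1)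
          rw [map_add, hφ, hφ, hφ, map_add]
        map_smul' := fun c a => by
          rw [← map_smul]
          congr 1
          apply hinj (i + 1)
          rw [map_smul, hφ, hφ, map_smul, RingHom.id_apply] }
    have hF : ∀ a b, F (a * b) = F (b * a) := by
      intro a b
      change nt _ (φ (a * b)) = nt _ (φ (b * a))
      have h1 : ∀ a b, φ (a * b) = φ a * φ b := by
        intro a b
        apply hinj (i + 1)
        rw [map_mul, hφ, hφ, hφ, map_mul]
      rw [h1, h1, nt_tr]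
    have hF1 : F 1 = 1 := by
      change nt _ (φ 1) = 1
      have h1 : φ 1 = 1 := by
        apply hinj (i + 1)
        rw [hφ, map_one, map_one]
      rw [h1, nt_one _ (hN _)]
    intro y
    exact ⟨φ y, hφ y, tr_unique (hN i) F hF hF1 y⟩
  have steps : ∀ d i y, ∃ y', j (i + d) y' = j i y ∧ nt _ y' = nt _ y := by
    intro d
    induction d with
    | zero => intro i y; exact ⟨y, rfl, rfl⟩
    | succ d ih =>
      intro i y
      obtain ⟨y1, h1, h2⟩ := ih i y
      obtain ⟨y2, h3, h4⟩ := step (i + d) y1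
      exact ⟨y2, h3.trans h1, h4.trans h2⟩
  have steps' : ∀ i k, i ≤ k → ∀ y, ∃ y', j k y' = j i y ∧ nt _ y' = nt _ y := by
    intro i k hik
    obtain ⟨d, rfl⟩ := Nat.exists_eq_add_of_le hik
    exact steps d i
  let jl : ∀ i, CStarMatrix (Fin (2 ^ e i)) (Fin (2 ^ e i)) ℂ →ₗ[ℂ] A := fun i =>
    { toFun := j i
      map_add' := fun x y => map_add (j i) x y
      map_smul' := fun c x => map_smul (j i) c x }
  let eL : (⨁ i, CStarMatrix (Fin (2 ^ e i)) (Fin (2 ^ e i)) ℂ) →ₗ[ℂ] A :=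
    DirectSum.toModule ℂ ℕ A jl
  let f : (⨁ i, CStarMatrix (Fin (2 ^ e i)) (Fin (2 ^ e i)) ℂ) →ₗ[ℂ] ℂ :=
    DirectSum.toModule ℂ ℕ ℂ fun i => nt (2 ^ e i)
  have heL : ∀ i x, eL (DirectSum.lof ℂ ℕ (fun i => CStarMatrix (Fin (2 ^ e i)) (Fin (2 ^ e i)) ℂ)
      i x) = j i x := by
    intro i x
    exact DirectSum.toModule_lof (M := fun i => CStarMatrix (Fin (2 ^ e i)) (Fin (2 ^ e i)) ℂ)
      (φ := jl) ℂ i x
  have hf : ∀ i x, f (DirectSum.lof ℂ ℕ (fun i => CStarMatrix (Fin (2 ^ e i)) (Fin (2 ^ e i)) ℂ)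
      i x) = nt _ x := by
    intro i x
    exact DirectSum.toModule_lof (M := fun i => CStarMatrix (Fin (2 ^ e i)) (Fin (2 ^ e i)) ℂ)
      (φ := fun i => nt (2 ^ e i)) ℂ i x
  have hP : ∀ x, ∃ K y, eL x = j K y ∧ f x = nt _ y := by
    intro x
    induction x using DirectSum.induction_on with
    | zero => exact ⟨0, 0, by rw [map_zero, map_zero], by rw [map_zero, map_zero]⟩
    | of i x => exact ⟨i, x, heL i x, hf i x⟩
    | add x x' hx hx' =>
      obtain ⟨K, y, h1, h2⟩ := hx
      obtain ⟨K', y', h1', h2'⟩ := hx'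
      obtain ⟨z, h3, h4⟩ := steps' K (max K K') (le_max_left _ _) y
      obtain ⟨z', h3', h4'⟩ := steps' K' (max K K') (le_max_right _ _) y'
      refine ⟨max K K', z + z', ?_, ?_⟩
      · rw [map_add, map_add, h1, h1', h3, h3']
      · rw [map_add, map_add, h2, h2', h4, h4']
  have hdense : DenseRange eL := by
    refine hd.mono (Set.iUnion_subset fun i => ?_)
    rintro _ ⟨y, rfl⟩
    exact ⟨_, heL i y⟩
  have hnorm : ∀ x, ‖f x‖ ≤ 1 * ‖eL x‖ := by
    intro x
    obtain ⟨K, y, h1, h2⟩ := hP x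
    rw [h1, h2, one_mul]
    refine (nt_norm _ (hN K) y).trans ?_
    have h3 := (NonUnitalStarAlgHom.isometry (j K : _ →⋆ₙₐ[ℂ] A) (hinj K)).norm_map_of_map_zero
      (map_zero _) y
    exact h3.symm.le
  let τ := f.extendOfNorm eL
  have hτ : ∀ i y, τ (j i y) = nt _ y := by
    intro i y
    rw [← heL, ← hf]
    exact LinearMap.extendOfNorm_eq hdense ⟨1, hnorm⟩ _
  have hcont : Continuous τ := τ.continuous
  -- pairs in a common stage
  have hdU : ∀ i k y y', ∃ m z z', j m z = j i y ∧ j m z' = j k y' := by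
    intro i k y y'
    obtain ⟨z, h3, -⟩ := steps' i (max i k) (le_max_left _ _) y
    obtain ⟨z', h3', -⟩ := steps' k (max i k) (le_max_right _ _) y'
    exact ⟨_, z, z', h3, h3'⟩
  refine ⟨τ, ?_, ?_, ?_, ?_⟩
  · intro a
    have hcl : IsClosed {a : A | 0 ≤ τ (star a * a)} :=
      isClosed_le continuous_const (hcont.comp (continuous_star.mul continuous_id))
    refine hcl.closure_subset_iff.2 ?_ (hd a)
    refine Set.iUnion_subset fun i => ?_
    rintro _ ⟨y, rfl⟩
    change 0 ≤ τ (star (j i y) * j i y)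
    rw [← map_star, ← map_mul, hτ]
    exact nt_pos _ y
  · intro a
    have := LinearMap.norm_extendOfNorm_apply_le hdense 1 hnorm a
    rwa [one_mul] at this
  · have h1 : ∀ i y k y', τ (j i y * j k y') = τ (j k y' * j i y) := by
      intro i y k y'
      obtain ⟨m, z, z', hz, hz'⟩ := hdU i k y y'
      rw [← hz, ← hz', ← map_mul, ← map_mul, hτ, hτ, nt_tr]
    have h2 : ∀ i y b, τ (j i y * b) = τ (b * j i y) := by
      intro i y b
      have hcl : IsClosed {b : A | τ (j i y * b) = τ (b * j i y)} :=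
        isClosed_eq (hcont.comp (continuous_const_mul _)) (hcont.comp (continuous_mul_const _))
      refine hcl.closure_subset_iff.2 ?_ (hd b)
      refine Set.iUnion_subset fun k => ?_
      rintro _ ⟨y', rfl⟩
      exact h1 i y k y'
    intro a b
    have hcl : IsClosed {a : A | τ (a * b) = τ (b * a)} :=
      isClosed_eq (hcont.comp (continuous_mul_const _)) (hcont.comp (continuous_const_mul _))
    refine hcl.closure_subset_iff.2 ?_ (hd a)
    refine Set.iUnion_subset fun k => ?_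
    rintro _ ⟨y', rfl⟩
    exact h2 k y' b
  · intro a ha
    have h1 : a = 1 := by
      rw [← mul_one a]
      exact (ha 1).1
    have h2 : (1 : A) = j 0 1 := (map_one _).symm
    rw [h1, h2]
    exact (hτ 0 1).trans (nt_one _ (hN 0))

end

end Pool.Agent.Helper44.CAR
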