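import Pool.Agent.Helper39.CR.GoalsT

/-! CAR stage 3, EMB: `C₀(ℝ, E)` inside `C([0,1], E)`. -/

open scoped ComplexOrder ZeroAtInfty Topology
open TopologicalSpace Filter Real

namespace Pool.Agent.Helper44.CAR

open Pool.Agent.Helper34.CAR Pool.Agent.Helper39.CR

noncomputable section

/-- `(0,1) → ℝ` -/
def gg (t : unitInterval) : ℝ := tan (π * ((t : ℝ) - 1 / 2))

theorem tt_mem (s : ℝ) : arctan s / π + 1 / 2 ∈ unitInterval := by
  have h1 := arctan_lt_pi_div_two s
  have h2 := neg_pi_div_two_lt_arctan s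
  have hπ := pi_pos
  have h3 : arctan s / π < 1 / 2 := by rw [div_lt_iff₀ hπ]; linarith
  have h4 : -(1 / 2) < arctan s / π := by rw [lt_div_iff₀ hπ]; linarith
  exact ⟨by linarith, by linarith⟩

/-- the inverse -/
def tt (s : ℝ) : unitInterval := ⟨arctan s / π + 1 / 2, tt_mem s⟩

theorem gg_tt (s : ℝ) : gg (tt s) = s := by
  have hπ := pi_pos.ne'
  rw [gg, tt]
  simp only
  rw [add_sub_cancel_right, mul_div_cancel₀ _ hπ, tan_arctan]

theorem tt_ne_zero (s : ℝ) : tt s ≠ 0 := by
  intro h
  have h2 := neg_pi_div_two_lt_arctan s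
  have hπ := pi_pos
  have h4 : -(1 / 2) < arctan s / π := by rw [lt_div_iff₀ hπ]; linarith
  have h3 := congrArg Subtype.val h
  rw [tt] at h3
  simp only [Set.Icc.coe_zero] at h3
  linarith

theorem tt_ne_one (s : ℝ) : tt s ≠ 1 := by
  intro h
  have h2 := arctan_lt_pi_div_two s
  have hπ := pi_pos
  have h4 : arctan s / π < 1 / 2 := by rw [div_lt_iff₀ hπ]; linarith
  have h3 := congrArg Subtype.val h
  rw [tt] at h3
  simp only [Set.Icc.coe_one] at h3
  linarith

theorem inner_mem {t : unitInterval} (h0 : t ≠ 0) (h1 : t ≠ 1) :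
    -(π / 2) < π * ((t : ℝ) - 1 / 2) ∧ π * ((t : ℝ) - 1 / 2) < π / 2 := by
  have h2 := unitInterval.pos_iff_ne_zero.2 h0
  have h3 := unitInterval.lt_one_iff_ne_one.2 h1
  have h4 : (0 : ℝ) < t := h2
  have h5 : (t : ℝ) < 1 := h3
  have hπ := pi_pos
  constructor <;> nlinarith

theorem tt_gg {t : unitInterval} (h0 : t ≠ 0) (h1 : t ≠ 1) : tt (gg t) = t := by
  obtain ⟨h2, h3⟩ := inner_mem h0 h1
  refine Subtype.ext ?_
  rw [gg, tt]
  simp only
  rw [arctan_tan h2 h3, mul_div_cancel_left₀ _ pi_pos.ne']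
  ring

theorem tt_cont : Continuous tt := by
  unfold tt
  exact Continuous.subtype_mk (by fun_prop) _

theorem gg_cont {t : unitInterval} (h0 : t ≠ 0) (h1 : t ≠ 1) : ContinuousAt gg t := by
  obtain ⟨h2, h3⟩ := inner_mem h0 h1
  have h4 : ContinuousAt tan (π * ((t : ℝ) - 1 / 2)) :=
    continuousAt_tan.2 (cos_pos_of_mem_Ioo ⟨h2, h3⟩).ne'
  have h5 : ContinuousAt (fun t : unitInterval => π * ((t : ℝ) - 1 / 2)) t := by fun_prop
  exact ContinuousAt.comp (g := tan) (f := fun t : unitInterval => π * ((t : ℝ) - 1 / 2)) h4 h5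

theorem gg_tendsto {t : unitInterval} (h : cos (π * ((t : ℝ) - 1 / 2)) = 0) :
    Tendsto gg (𝓝[≠] t) (cocompact ℝ) := by
  rw [← Metric.cobounded_eq_cocompact, ← tendsto_norm_atTop_iff_cobounded]
  have h1 := tendsto_abs_tan_of_cos_eq_zero h
  have h5 : ContinuousAt (fun t : unitInterval => π * ((t : ℝ) - 1 / 2)) t := by fun_prop
  refine h1.comp (tendsto_nhdsWithin_iff.2 ⟨h5.tendsto.mono_left nhdsWithin_le_nhds, ?_⟩)
  filter_upwards [self_mem_nhdsWithin] with s hs hs'
  refine hs (Subtype.ext ?_)
  have h6 : π * ((s : ℝ) - 1 / 2) = π * ((t : ℝ) - 1 / 2) := hs'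
  have h7 := mul_left_cancel₀ pi_pos.ne' h6
  linarith

variable {E : Type} [NonUnitalCStarAlgebra E]

/-- the function -/
def uF (f : C₀(ℝ, E)) (t : unitInterval) : E := if t = 0 ∨ t = 1 then 0 else f (gg t)

theorem uF_cont (f : C₀(ℝ, E)) : Continuous (uF f) := by
  rw [continuous_iff_continuousAt]
  intro t
  by_cases ht : t = 0 ∨ t = 1
  · rw [continuousAt_iff_punctured_nhds]
    have h1 : uF f t = 0 := if_pos ht
    rw [h1]
    have h2 : Tendsto (fun t => f (gg t)) (𝓝[≠] t) (𝓝 0) := by
      refine f.zero_at_infty'.comp (gg_tendsto ?_)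
      rcases ht with rfl | rfl
      · rw [Set.Icc.coe_zero, show π * ((0 : ℝ) - 1 / 2) = -(π / 2) by ring, cos_neg,
          cos_pi_div_two]
      · rw [Set.Icc.coe_one, show π * ((1 : ℝ) - 1 / 2) = (π / 2) by ring, cos_pi_div_two]
    rw [tendsto_zero_iff_norm_tendsto_zero] at h2 ⊢
    refine squeeze_zero (fun _ => norm_nonneg _) (fun s => ?_) h2
    rw [uF]
    split_ifs
    · rw [norm_zero]; exact norm_nonneg _
    · exact le_rfl
  · push Not at ht
    have h1 : ContinuousAt (fun t => f (gg t)) t :=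
      ContinuousAt.comp (g := f) (f := gg) (map_continuous f).continuousAt (gg_cont ht.1 ht.2)
    refine h1.congr ?_
    have h2 : {t : unitInterval | t ≠ 0 ∧ t ≠ 1} ∈ 𝓝 t := by
      refine IsOpen.mem_nhds ?_ ht
      exact isOpen_ne.inter isOpen_ne
    filter_upwards [h2] with s hs
    rw [uF, if_neg]
    push Not
    exact hs

/-- the embedding -/
def uH (E : Type) [NonUnitalCStarAlgebra E] : C₀(ℝ, E) →⋆ₙₐ[ℂ] C(unitInterval, E) where
  toFun f := ⟨uF f, uF_cont f⟩
  map_smul' c f := by
    ext t
    change uF (c • f) t = c • uF f t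
    unfold uF
    split_ifs
    · rw [smul_zero]
    · rfl
  map_zero' := by
    ext t
    change uF (0 : C₀(ℝ, E)) t = 0
    unfold uF
    split_ifs <;> rfl
  map_add' f g := by
    ext t
    change uF (f + g) t = uF f t + uF g t
    unfold uF
    split_ifs
    · rw [add_zero]
    · rfl
  map_mul' f g := by
    ext t
    change uF (f * g) t = uF f t * uF g t
    unfold uF
    split_ifs
    · rw [mul_zero]
    · rfl
  map_star' f := by
    ext t
    change uF (star f) t = star (uF f t)
    unfold uF
    split_ifs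
    · rw [star_zero]
    · rfl

theorem emb : S_EMB := by
  intro E _
  refine ⟨uH E, ?_, ?_⟩
  · intro f g h
    ext s
    have h1 : uF f (tt s) = uF g (tt s) := DFunLike.congr_fun h (tt s)
    rwa [uF, uF, if_neg (by push Not; exact ⟨tt_ne_zero s, tt_ne_one s⟩),
      if_neg (by push Not; exact ⟨tt_ne_zero s, tt_ne_one s⟩), gg_tt] at h1
  · intro F
    constructor
    · rintro ⟨f, rfl⟩
      exact ⟨if_pos (Or.inl rfl), if_pos (Or.inr rfl)⟩
    · rintro ⟨h0, h1⟩
      have hc : Continuous fun s => F (tt s) := (map_continuous F).comp tt_cont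
      have hz : Tendsto (fun s => F (tt s)) (cocompact ℝ) (𝓝 0) := by
        rw [cocompact_eq_atBot_atTop]
        refine Tendsto.sup ?_ ?_
        · have h2 : Tendsto tt atBot (𝓝 0) := by
            rw [tendsto_subtype_rng]
            have h3 := (tendsto_arctan_atBot.mono_right nhdsWithin_le_nhds).div_const π
            have h4 := h3.add_const (1 / 2)
            rwa [show -(π / 2) / π + 1 / 2 = ((0 : unitInterval) : ℝ) by
              have := pi_pos.ne'
              rw [Set.Icc.coe_zero]
              field_simp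
              ring] at h4
          have h5 := ((map_continuous F).tendsto 0).comp h2
          rwa [h0] at h5
        · have h2 : Tendsto tt atTop (𝓝 1) := by
            rw [tendsto_subtype_rng]
            have h3 := (tendsto_arctan_atTop.mono_right nhdsWithin_le_nhds).div_const π
            have h4 := h3.add_const (1 / 2)
            rwa [show (π / 2) / π + 1 / 2 = ((1 : unitInterval) : ℝ) by
              have := pi_pos.ne'
              rw [Set.Icc.coe_one]
              field_simp
              ring] at h4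
          have h5 := ((map_continuous F).tendsto 1).comp h2
          rwa [h1] at h5
      refine ⟨⟨⟨fun s => F (tt s), hc⟩, hz⟩, ?_⟩
      ext t
      change uF _ t = F t
      rw [uF]
      split_ifs with ht
      · rcases ht with rfl | rfl
        · exact h0.symm
        · exact h1.symm
      · push Not at ht
        change F (tt (gg t)) = F t
        rw [tt_gg ht.1 ht.2]

end

end Pool.Agent.Helper44.CAR
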