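import Pool.Agent.Helper39.CR.GoalsS

/-! CAR stage 3, IDL: closed ideals meet the members of a dense union. -/

open scoped ComplexOrder ZeroAtInfty Topology
open TopologicalSpace

namespace Pool.Agent.Helper44.CAR

open Pool.Agent.Helper34.CAR Pool.Agent.Helper39.CR

section
variable {H : Type} [NonUnitalCStarAlgebra H] (c : H)

theorem idl_zero : (0 : H) ∈ idl c := ⟨0, Fin.elim0, Fin.elim0, by simp⟩

theorem idl_add {a b : H} (ha : a ∈ idl c) (hb : b ∈ idl c) : a + b ∈ idl c := by
  obtain ⟨m, x, y, rfl⟩ := ha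
  obtain ⟨m', x', y', rfl⟩ := hb
  refine ⟨m + m', Fin.append x x', Fin.append y y', ?_⟩
  rw [Fin.sum_univ_add]
  simp

theorem idl_smul (r : ℂ) {a : H} (ha : a ∈ idl c) : r • a ∈ idl c := by
  obtain ⟨m, x, y, rfl⟩ := ha
  refine ⟨m, fun l => r • x l, y, ?_⟩
  rw [Finset.smul_sum]
  refine Finset.sum_congr rfl fun l _ => ?_
  rw [smul_mul_assoc, smul_mul_assoc]

theorem idl_mul_left (b : H) {a : H} (ha : a ∈ idl c) : b * a ∈ idl c := by
  obtain ⟨m, x, y, rfl⟩ := ha
  refine ⟨m, fun l => b * x l, y, ?_⟩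
  rw [Finset.mul_sum]
  refine Finset.sum_congr rfl fun l _ => ?_
  simp only [mul_assoc]

theorem idl_mul_right (b : H) {a : H} (ha : a ∈ idl c) : a * b ∈ idl c := by
  obtain ⟨m, x, y, rfl⟩ := ha
  refine ⟨m, x, fun l => y l * b, ?_⟩
  rw [Finset.sum_mul]
  refine Finset.sum_congr rfl fun l _ => ?_
  simp only [mul_assoc]

theorem idl_star (hc : star c = c) {a : H} (ha : a ∈ idl c) : star a ∈ idl c := by
  obtain ⟨m, x, y, rfl⟩ := ha
  refine ⟨m, fun l => star (y l), fun l => star (x l), ?_⟩
  rw [star_sum]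
  refine Finset.sum_congr rfl fun l _ => ?_
  rw [star_mul, star_mul, hc, mul_assoc]

/-- the closed ideal -/
noncomputable def clI : Submodule ℂ H :=
  Submodule.topologicalClosure
    { carrier := idl c
      add_mem' := idl_add c
      zero_mem' := idl_zero c
      smul_mem' := fun r _ h => idl_smul c r h }

theorem mem_clI (a : H) : a ∈ clI c ↔ a ∈ closure (idl c) := Iff.rfl

theorem clI_mul_left (b : H) {a : H} (ha : a ∈ closure (idl c)) : b * a ∈ closure (idl c) :=
  map_mem_closure (continuous_const_mul b) ha fun _ h => idl_mul_left c b h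

theorem clI_mul_right (b : H) {a : H} (ha : a ∈ closure (idl c)) : a * b ∈ closure (idl c) :=
  map_mem_closure (f := fun a => a * b) (continuous_mul_const b) ha
    fun _ h => idl_mul_right c b h

theorem clI_star (hc : star c = c) {a : H} (ha : a ∈ closure (idl c)) :
    star a ∈ closure (idl c) :=
  map_mem_closure continuous_star ha fun _ h => idl_star c hc h

end

theorem idl_meets (hQT : Pool.Agent.Helper39.Uct.S_QT) : S_IDL := by
  intro H _ G _ u hu hd c hc hc0
  by_contra hcon
  push Not at hcon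
  obtain ⟨H', _, π, -, hπ⟩ := hQT H (clI c) (Submodule.isClosed_topologicalClosure _)
    (fun x hx b => ⟨clI_mul_left c b hx, clI_mul_right c b hx⟩) (fun x hx => clI_star c hc hx)
  have h1 : ∀ k a, ‖π (u k a)‖ = ‖u k a‖ := by
    intro k a
    have h2 : Function.Injective (π.comp (u k)) := by
      rw [injective_iff_map_eq_zero]
      intro a ha
      by_contra h0
      exact hcon k a h0 ((hπ _).1 ha)
    have h3 := (NonUnitalStarAlgHom.isometry (π.comp (u k)) h2).norm_map_of_map_zero (map_zero _) a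
    have h4 := (NonUnitalStarAlgHom.isometry (u k) (hu k)).norm_map_of_map_zero (map_zero _) a
    rw [h4, ← h3]
    rfl
  have hcont : Continuous π := AddMonoidHomClass.continuous_of_bound π 1 (fun x => by
    simpa using NonUnitalStarAlgHom.norm_apply_le π x)
  have h2 : ∀ h, ‖π h‖ = ‖h‖ := by
    have hcl : IsClosed {h | ‖π h‖ = ‖h‖} := isClosed_eq (hcont.norm) continuous_norm
    intro h
    refine hcl.closure_subset_iff.2 ?_ (hd h)
    refine Set.iUnion_subset fun k => ?_
    rintro _ ⟨a, rfl⟩
    exact h1 k a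
  have h3 : c * c * c = 0 := by
    rw [← norm_eq_zero, ← h2, norm_eq_zero, hπ]
    exact subset_closure ⟨1, fun _ => c, fun _ => c, by simp⟩
  have h4 : c * c = 0 := by
    rw [← CStarRing.star_mul_self_eq_zero_iff, star_mul, hc, ← mul_assoc, h3, zero_mul]
  apply hc0
  rw [← CStarRing.star_mul_self_eq_zero_iff, hc, h4]

end Pool.Agent.Helper44.CAR
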