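import Pool.Agent.Helper39.CR.GoalsT

/-! CAR stage 3, TFWD: from the fixed point algebra to the inverse system. -/

open scoped ComplexOrder ZeroAtInfty
open TopologicalSpace

namespace Pool.Agent.Helper44.CAR

open Pool.Agent.Helper34.CAR Pool.Agent.Helper39.CR

theorem tfwd (hTGR : S_TGR) (hTKD : S_TKD) (hTWS : S_TWS) (hTTOW : S_TTOW) : S_TFWD := by
  intro T B _ _ θ s L _ _ ι hL γ Z n hn hF hθ h0 i
  have : NeZero n := ⟨by omega⟩
  obtain ⟨i', rfl⟩ : ∃ i' : ZMod 2, i = i' + 1 := ⟨i - 1, by ring⟩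
  obtain ⟨u, -, hu2, hu3, hu4⟩ := hTTOW B θ s L ι hL γ Z n hF
  obtain ⟨hw1, hw2, hw3⟩ : (∀ k (j : ZMod n), ∃ x, wz s n (n + k) x = j) ∧
      (∀ k x, wz s n (k + 1) ((s.e k).symm (x, s.c0 k)) = wz s n k x + 1) ∧
      (∀ k x, wz s n (k + 1) ((s.e k).symm (x, s.c1 k)) = wz s n k x) := by
    refine ⟨fun k j => ?_, fun k x => ?_, fun k x => ?_⟩
    · obtain ⟨x, hx⟩ := (hTWS B θ s (n + k)).1 j.val (by have := ZMod.val_lt j; omega)
      refine ⟨x, ?_⟩
      rw [wz, hx, ZMod.natCast_zmod_val]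
    · rw [wz, wz, (hTWS B θ s k).2.1]
      push_cast
      rfl
    · rw [wz, wz, (hTWS B θ s k).2.2]
  -- the shifted tower
  have hmono : ∀ k m, Set.range (u k) ⊆ Set.range (u (m + k)) := by
    intro k m
    induction m with
    | zero => rw [zero_add]
    | succ m ih =>
      refine ih.trans ?_
      rintro _ ⟨a, rfl⟩
      have h1 : m + 1 + k = m + k + 1 := by ring
      rw [h1]
      exact ⟨kd s n (m + k) a, hu3 _ _⟩
  have hd : Dense (⋃ k, Set.range (u (n + k))) := by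
    refine hu4.mono (Set.iUnion_subset fun k => ?_)
    exact (hmono k n).trans (Set.subset_iUnion (fun k => Set.range (u (n + k))) k)
  have hM := fun i => T.milnor i (Fix γ Z) (fun k => Gd B (wz s n (n + k)))
    (fun k => kd s n (n + k)) (fun k => u (n + k)) (fun k => hu2 _) (fun k b => hu3 _ b) hd
  -- the connecting maps
  have hK : ∀ (i : ZMod 2) (k : ℕ) (y : T.F i (Gd B (wz s n (k + 1)))) (x : s.S k),
      T.map i (cd B (wz s n k) x) (T.map i (kd s n k) y) =
      T.map i (cd B (wz s n (k + 1)) ((s.e k).symm (x, s.c1 k))) y -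
      T.map i (cd B (wz s n (k + 1)) ((s.e k).symm (x, s.c0 k))) y :=
    fun i k y x => hTKD T i B θ s (hθ i) n k y x
  constructor
  · intro y hy
    choose Y hY using fun k => (hTGR T (i' + 1) B (s.S (n + k)) (ZMod n) (wz s n (n + k))).2.1 (y k)
    obtain ⟨Y', hY'⟩ := (hM (i' + 1)).1 Y (by
      intro k
      rw [← sub_eq_zero]
      refine (hTGR T (i' + 1) B (s.S (n + k)) (ZMod n) (wz s n (n + k))).2.2 _ fun x => ?_
      rw [map_sub, hY k x, hK (i' + 1) (n + k) (Y (k + 1)) x]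
      have e1 := hY (k + 1) ((s.e (n + k)).symm (x, s.c1 (n + k)))
      have e2 := hY (k + 1) ((s.e (n + k)).symm (x, s.c0 (n + k)))
      have e3 := hw3 (n + k) x
      have e4 := hw2 (n + k) x
      have e5 : ∀ a b c d : T.F (i' + 1) B, a = y (k + 1) (wz s n (n + k) x) →
          b = y (k + 1) (wz s n (n + k) x + 1) → a - b - y k (wz s n (n + k) x) = 0 := by
        rintro a b c d rfl rfl
        rw [hy, sub_self]
      refine e5 _ _ 0 0 (e1.trans (congrArg (y (k + 1)) e3)) (e2.trans (congrArg (y (k + 1)) e4)))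
    intro k j
    obtain ⟨x, rfl⟩ := hw1 k j
    rw [← hY k x, ← hY' k, h0 _ Y', map_zero, map_zero]
  · intro z
    choose Z' hZ' using fun k => (hTGR T (i' + 1) B (s.S (n + k)) (ZMod n) (wz s n (n + k))).2.1 (z k)
    obtain ⟨-, d, hd1, -⟩ := hM i'
    obtain ⟨t, ht⟩ := (hd1 Z').1 (h0 _ _)
    choose xx hxx using hw1
    refine ⟨fun k j => T.map (i' + 1) (cd B (wz s n (n + k)) (xx k j)) (t k), fun k j => ?_⟩
    have e1 : z k j = T.map (i' + 1) (cd B (wz s n (n + k)) (xx k j)) (Z' k) := by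
      rw [hZ' k, hxx]
    have hc : ∀ (k : ℕ) (x x' : s.S (n + k)), wz s n (n + k) x = wz s n (n + k) x' →
        T.map (i' + 1) (cd B (wz s n (n + k)) x) = T.map (i' + 1) (cd B (wz s n (n + k)) x') :=
      fun k x x' h => (hTGR T (i' + 1) B (s.S (n + k)) (ZMod n) (wz s n (n + k))).1 x x' h
    rw [e1, ht k, map_sub]
    refine congrArg _ ((hK (i' + 1) (n + k) (t (k + 1)) (xx k j)).trans ?_)
    have e2 := hw3 (n + k) (xx k j)
    have e3 := hw2 (n + k) (xx k j)
    rw [hxx k j] at e2 e3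
    have e4 := hc (k + 1) ((s.e (n + k)).symm (xx k j, s.c1 (n + k))) (xx (k + 1) j)
      (e2.trans (hxx (k + 1) j).symm)
    have e5 := hc (k + 1) ((s.e (n + k)).symm (xx k j, s.c0 (n + k))) (xx (k + 1) (j + 1))
      (e3.trans (hxx (k + 1) (j + 1)).symm)
    exact congrArg₂ (· - ·) (DFunLike.congr_fun e4 (t (k + 1))) (DFunLike.congr_fun e5 (t (k + 1)))

end Pool.Agent.Helper44.CAR
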