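import Pool.Agent.Helper39.CR.GoalsS

/-! CAR stage 3, TRM: the values of a compatible family of traces on the matrix units. -/

open scoped ComplexOrder ZeroAtInfty ZMod Topology
open TopologicalSpace

namespace Pool.Agent.Helper44.CAR

open Pool.Agent.Helper34.CAR Pool.Agent.Helper39.CR

/-- A function on `ℤ/n` all whose nontrivial Fourier coefficients vanish is constant. -/
theorem const_of_dft {n : ℕ} [NeZero n] (f : ZMod n → ℂ) (h : ∀ j ≠ 0, ZMod.dft f j = 0)
    (r r' : ZMod n) : f r = f r' := by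
  have h1 : ∀ r, f r = (n : ℂ)⁻¹ • ZMod.dft f 0 := by
    intro r
    have h2 : f r = ZMod.dft.symm (ZMod.dft f) r := by rw [LinearEquiv.symm_apply_apply]
    rw [h2, ZMod.invDFT_apply, Finset.sum_eq_single 0]
    · rw [zero_mul, AddChar.map_zero_eq_one, one_smul]
    · intro j _ hj
      rw [h j hj, smul_zero]
    · intro h
      exact absurd (Finset.mem_univ _) h
  rw [h1 r, h1 r']

theorem norm_one_add_lt {z : ℂ} (hz : ‖z‖ = 1) (h1 : z ≠ 1) : ‖1 + z‖ < 2 := by
  by_contra h
  push Not at h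
  have h2 : Complex.normSq z = 1 := by
    rw [Complex.normSq_eq_norm_sq, hz, one_pow]
  have h3 : (2 : ℝ) ^ 2 ≤ Complex.normSq (1 + z) := by
    rw [Complex.normSq_eq_norm_sq]
    gcongr
  rw [Complex.normSq_apply] at h2 h3
  simp only [Complex.add_re, Complex.one_re, Complex.add_im, Complex.one_im, zero_add] at h3
  have h4 : z.re = 1 := by
    have : z.re ≤ 1 := by nlinarith [mul_self_nonneg z.im]
    nlinarith
  have h5 : z.im = 0 := by
    rw [h4] at h2
    nlinarith [mul_self_nonneg z.im]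
  exact h1 (Complex.ext h4 h5)

theorem sum_shift {n : ℕ} [NeZero n] {E : Type} [AddCommMonoid E] (g : ZMod n → E) :
    ∑ r, g (r + 1) = ∑ r, g r :=
  Fintype.sum_equiv (Equiv.addRight 1) _ _ fun _ => rfl

/-- Bounded solutions of the averaging recursion are constant. -/
theorem const_of_rec {n : ℕ} [NeZero n] (c : ℕ → ℕ) (hc : ∀ k, 1 ≤ c k)
    (hc2 : ∀ N, ∃ k ≥ N, c k = 2) (N : ℕ → ℝ) (hN0 : ∀ k, 0 < N k)
    (hN : ∀ k, N (k + 1) = N k * c k) (M : ℕ → ZMod n → ℝ) (hM0 : ∀ k r, 0 ≤ M k r)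
    (hM : ∀ k r, M k r = (c k - 1) * M (k + 1) r + M (k + 1) (r + 1)) (k : ℕ) (r r' : ZMod n) :
    M k r = M k r' := by
  obtain ⟨f, hf⟩ : ∃ f : ℕ → ZMod n → ℝ, ∀ k r, f k r = N k * M k r := ⟨_, fun _ _ => rfl⟩
  have hf0 : ∀ k r, 0 ≤ f k r := fun k r => by
    rw [hf]
    exact mul_nonneg (hN0 k).le (hM0 k r)
  have hcp : ∀ k, (0 : ℝ) < c k := fun k => by
    have := hc k
    positivity
  have hfr : ∀ k r, c k * f k r = (c k - 1) * f (k + 1) r + f (k + 1) (r + 1) := by
    intro k r
    rw [hf, hf, hf, hM k r, hN k]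
    ring
  -- the sums are constant
  have hsum : ∀ k, ∑ r, f k r = ∑ r, f 0 r := by
    intro k
    induction k with
    | zero => rfl
    | succ k ih =>
      have h1 : c k * ∑ r, f k r = c k * ∑ r, f (k + 1) r := by
        rw [Finset.mul_sum]
        simp_rw [hfr]
        rw [Finset.sum_add_distrib, ← Finset.mul_sum, sum_shift (f (k + 1))]
        ring
      rw [← mul_left_cancel₀ (hcp k).ne' h1, ih]
  set K := ∑ r, f 0 r with hK
  -- Fourier coefficients
  have key : ∀ j : ZMod n, j ≠ 0 → ∀ k, ZMod.dft (fun r => (f k r : ℂ)) j = 0 := by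
    intro j hj
    obtain ⟨F, hF⟩ : ∃ F : ℕ → ℂ, ∀ k, F k = ZMod.dft (fun r => (f k r : ℂ)) j :=
      ⟨_, fun _ => rfl⟩
    obtain ⟨e, he⟩ : ∃ e : ℂ, e = ZMod.stdAddChar j := ⟨_, rfl⟩
    have hen : ‖e‖ = 1 := by
      rw [he, ZMod.stdAddChar_apply]
      exact Circle.norm_coe _
    have he1 : e ≠ 1 := by
      intro h
      apply hj
      apply ZMod.injective_stdAddChar
      rw [AddChar.map_zero_eq_one]
      rw [← he]
      exact h
    have hrec : ∀ k, (c k : ℂ) * F k = (((c k : ℂ) - 1) + e) * F (k + 1) := by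
      intro k
      simp only [hF, ZMod.dft_apply, smul_eq_mul]
      rw [add_mul, Finset.mul_sum, Finset.mul_sum, Finset.mul_sum]
      rw [← sum_shift (fun r => e * (ZMod.stdAddChar (-(r * j)) * (f (k + 1) r : ℂ)))]
      rw [← Finset.sum_add_distrib]
      refine Finset.sum_congr rfl fun r _ => ?_
      have h1 : e * ZMod.stdAddChar (-((r + 1) * j)) = ZMod.stdAddChar (-(r * j)) := by
        rw [he, ← AddChar.map_add_eq_mul]
        congr 1
        ring
      have h2 := congrArg Complex.ofReal (hfr k r)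
      push_cast at h2
      rw [← mul_assoc e, h1]
      linear_combination (ZMod.stdAddChar (-(r * j)) : ℂ) * h2
    have hle : ∀ k, ‖F k‖ ≤ ‖F (k + 1)‖ := by
      intro k
      have h1 := congrArg norm (hrec k)
      rw [norm_mul, norm_mul, Complex.norm_natCast] at h1
      have h2 : ‖((c k : ℂ) - 1) + e‖ ≤ c k := by
        refine (norm_add_le _ _).trans ?_
        rw [hen]
        have h3 : ((c k : ℂ) - 1) = ((c k - 1 : ℕ) : ℂ) := by
          rw [Nat.cast_sub (hc k), Nat.cast_one]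
        rw [h3, Complex.norm_natCast, Nat.cast_sub (hc k), Nat.cast_one]
        linarith
      have h4 : (c k : ℝ) * ‖F k‖ ≤ c k * ‖F (k + 1)‖ := by
        rw [h1]
        gcongr
      exact le_of_mul_le_mul_left h4 (hcp k)
    have hle' : ∀ k d, ‖F k‖ ≤ ‖F (k + d)‖ := by
      intro k d
      induction d with
      | zero => exact le_rfl
      | succ d ih => exact ih.trans (hle _)
    set ρ : ℝ := ‖1 + e‖ / 2 with hρ
    have hρ0 : 0 ≤ ρ := by positivity
    have hρ1 : ρ < 1 := by
      have := norm_one_add_lt hen he1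
      rw [hρ]
      linarith
    have hlt : ∀ k, c k = 2 → ‖F k‖ ≤ ρ * ‖F (k + 1)‖ := by
      intro k hk
      have h1 := congrArg norm (hrec k)
      rw [norm_mul, norm_mul, Complex.norm_natCast, hk] at h1
      have h2 : ((2 : ℕ) : ℂ) - 1 + e = 1 + e := by
        push_cast
        ring
      rw [h2] at h1
      push_cast at h1
      rw [hρ]
      linarith
    have hb : ∀ k, ‖F k‖ ≤ K := by
      intro k
      simp only [hF, ZMod.dft_apply, smul_eq_mul]
      refine (norm_sum_le _ _).trans ?_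
      rw [← hsum k]
      refine Finset.sum_le_sum fun r _ => ?_
      rw [norm_mul, ZMod.stdAddChar_apply, Circle.norm_coe, one_mul, Complex.norm_real,
        Real.norm_of_nonneg (hf0 k r)]
    have hpow : ∀ m k, ‖F k‖ ≤ ρ ^ m * K := by
      intro m
      induction m with
      | zero => intro k; rw [pow_zero, one_mul]; exact hb k
      | succ m ih =>
        intro k
        obtain ⟨i, hi, hi2⟩ := hc2 k
        obtain ⟨d, rfl⟩ := Nat.exists_eq_add_of_le hi
        refine (hle' k d).trans ((hlt _ hi2).trans ?_)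
        rw [pow_succ', mul_assoc]
        exact mul_le_mul_of_nonneg_left (ih _) hρ0
    intro k
    have h1 : Filter.Tendsto (fun m => ρ ^ m * K) Filter.atTop (𝓝 (0 * K)) :=
      (tendsto_pow_atTop_nhds_zero_of_lt_one hρ0 hρ1).mul_const K
    rw [zero_mul] at h1
    have h2 : ‖F k‖ ≤ 0 := ge_of_tendsto' h1 fun m => hpow m k
    rw [← hF]
    exact norm_le_zero_iff.1 h2
  have h1 := const_of_dft (fun r => (f k r : ℂ)) (fun j hj => key j hj k) r r'
  have h2 : f k r = f k r' := Complex.ofReal_injective h1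
  rw [hf, hf] at h2
  exact mul_left_cancel₀ (hN0 k).ne' h2

section
variable {B : Type} [CStarAlgebra B] {θ : B →⋆ₐ[ℂ] B} (s : Sys B θ) (n : ℕ)

theorem sg_mem (k : ℕ) (x y : s.S k) (h : wz s n k x = wz s n k y) (b : B) :
    (Mt.single x y b : Mt (s.S k) B) ∈ grd B (wz s n k) := by
  intro p q hpq
  rw [Mt.single_apply, if_neg]
  rintro ⟨rfl, rfl⟩
  exact hpq h

/-- matrix units of the graded part -/
noncomputable def sg (k : ℕ) (x y : s.S k) (h : wz s n k x = wz s n k y) (b : B) :
    Gd B (wz s n k) := ⟨Mt.single x y b, sg_mem s n k x y h b⟩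

theorem sg_self (k : ℕ) (x : s.S k) (b : B) : sg s n k x x rfl b = cd B (wz s n k) x b := rfl

theorem sg_mul (k : ℕ) (x y z : s.S k) (h : wz s n k x = wz s n k y)
    (h' : wz s n k y = wz s n k z) (b c : B) :
    sg s n k x y h b * sg s n k y z h' c = sg s n k x z (h.trans h') (b * c) :=
  Subtype.ext (Mt.single_mul_single x y z b c)

theorem sg_mul_ne (k : ℕ) (x y z w : s.S k) (h : wz s n k x = wz s n k y)
    (h' : wz s n k z = wz s n k w) (hne : y ≠ z) (b c : B) :
    sg s n k x y h b * sg s n k z w h' c = 0 :=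
  Subtype.ext (Mt.single_mul_single_ne hne x w b c)

theorem kd_cd_one (k : ℕ) (x : s.S k) : kd s n k (cd B (wz s n k) x 1) =
    ∑ c, cd B (wz s n (k + 1)) ((s.e k).symm (x, c)) 1 := by
  refine Subtype.ext ?_
  have h1 : ((∑ c, cd B (wz s n (k + 1)) ((s.e k).symm (x, c)) 1 : Gd B (wz s n (k + 1))) :
      Mt (s.S (k + 1)) B) =
      ∑ c, (Mt.single ((s.e k).symm (x, c)) ((s.e k).symm (x, c)) 1 : Mt (s.S (k + 1)) B) :=
    map_sum (NonUnitalStarSubalgebraClass.subtype (grd B (wz s n (k + 1)))) _ _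
  rw [h1]
  change s.κ k (Mt.single x x 1) = _
  ext p q
  rw [Sys.κ_apply, Mt.single_apply, Mt.sum_apply]
  simp only [Mt.single_apply, Equiv.eq_symm_apply]
  by_cases h2 : (s.e k p).1 = x ∧ (s.e k q).1 = x
  · rw [if_pos h2, map_one, Mt.one_apply]
    by_cases h3 : (s.e k p).2 = (s.e k q).2
    · rw [if_pos h3, Finset.sum_eq_single (s.e k p).2, if_pos]
      · exact ⟨Prod.ext h2.1 rfl, Prod.ext h2.2 h3.symm⟩
      · intro c _ hc
        rw [if_neg]
        rintro ⟨h4, -⟩
        exact hc (congrArg Prod.snd h4).symm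
      · intro h
        exact absurd (Finset.mem_univ _) h
    · rw [if_neg h3, Finset.sum_eq_zero]
      intro c _
      rw [if_neg]
      rintro ⟨h4, h5⟩
      exact h3 ((congrArg Prod.snd h4).trans (congrArg Prod.snd h5).symm)
  · rw [if_neg h2, map_zero, Mt.zero_apply, Finset.sum_eq_zero]
    intro c _
    rw [if_neg]
    rintro ⟨h4, h5⟩
    exact h2 ⟨congrArg Prod.fst h4, congrArg Prod.fst h5⟩

theorem wz_symm (k : ℕ) (x : s.S k) (c : s.C k) :
    wz s n (k + 1) ((s.e k).symm (x, c)) = wz s n k x + if c = s.c0 k then 1 else 0 := by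
  change ((s.wt (k + 1) ((s.e k).symm (x, c)) : ℕ) : ZMod n) = ((s.wt k x : ℕ) : ZMod n) + _
  simp only [Sys.wt, Equiv.apply_symm_apply]
  split_ifs <;> simp

theorem card_S (k : ℕ) : Fintype.card (s.S (k + 1)) = Fintype.card (s.S k) * Fintype.card (s.C k) := by
  rw [Fintype.card_congr (s.e k), Fintype.card_prod]

variable {s n} {τ : ∀ k, Gd B (wz s n k) →ₗ[ℂ] ℂ} (hτ : TrFam s n τ)
include hτ

theorem t_nonneg (k : ℕ) (x : s.S k) : 0 ≤ τ k (cd B (wz s n k) x 1) := by
  have h := hτ.pos k (cd B (wz s n k) x 1)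
  rwa [← map_star, ← map_mul, star_one, one_mul] at h

theorem t_eq (k : ℕ) (x y : s.S k) (h : wz s n k x = wz s n k y) :
    τ k (cd B (wz s n k) x 1) = τ k (cd B (wz s n k) y 1) := by
  have h1 := hτ.tr k (sg s n k x y h 1) (sg s n k y x h.symm 1)
  rwa [sg_mul, sg_mul, one_mul, sg_self, sg_self] at h1

theorem t_rec (k : ℕ) (x : s.S k) : τ k (cd B (wz s n k) x 1) =
    ∑ c, τ (k + 1) (cd B (wz s n (k + 1)) ((s.e k).symm (x, c)) 1) := by
  rw [← hτ.comp, kd_cd_one, map_sum]

end

theorem trm (hTWS : S_TWS) : S_TRM := by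
  intro B _ θ s n hn hc2 τ hτ
  have : NeZero n := ⟨by omega⟩
  have hw1 : ∀ k (j : ZMod n), ∃ x, wz s n (n + k) x = j := by
    intro k j
    obtain ⟨x, hx⟩ := (hTWS B θ s (n + k)).1 j.val (by have := ZMod.val_lt j; omega)
    refine ⟨x, ?_⟩
    rw [wz, hx, ZMod.natCast_zmod_val]
  choose xx hxx using hw1
  obtain ⟨t, ht⟩ : ∃ t : ∀ k, s.S k → ℝ, ∀ k x, τ k (cd B (wz s n k) x 1) = (t k x : ℂ) := by
    refine ⟨fun k x => (τ k (cd B (wz s n k) x 1)).re, fun k x => ?_⟩
    have := Complex.nonneg_iff.1 (t_nonneg hτ k x)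
    exact Complex.ext rfl this.2.symm
  have ht0 : ∀ k x, 0 ≤ t k x := by
    intro k x
    have := t_nonneg hτ k x
    rw [ht] at this
    exact_mod_cast this
  have hteq : ∀ k x y, wz s n k x = wz s n k y → t k x = t k y := by
    intro k x y h
    have := t_eq hτ k x y h
    rw [ht, ht] at this
    exact_mod_cast this
  have htr : ∀ k x, t k x = ∑ c, t (k + 1) ((s.e k).symm (x, c)) := by
    intro k x
    have h1 := t_rec hτ k x
    simp_rw [ht] at h1
    rw [← Complex.ofReal_sum] at h1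
    exact Complex.ofReal_injective h1
  have hone : ∀ k, ∑ x, t k x = 1 := by
    intro k
    have h1 := hτ.one k
    simp_rw [ht] at h1
    exact_mod_cast h1
  have hcard : ∀ k, 1 ≤ Fintype.card (s.C k) := fun k => Fintype.card_pos_iff.2 ⟨s.c0 k⟩
  have hS : ∀ k, Nonempty (s.S k) := by
    intro k
    induction k with
    | zero => exact ⟨s.s0⟩
    | succ k ih => exact ⟨(s.e k).symm (ih.some, s.c0 k)⟩
  have hSc : ∀ k, 0 < Fintype.card (s.S k) := fun k => Fintype.card_pos_iff.2 (hS k)
  obtain ⟨M, hM⟩ : ∃ M : ℕ → ZMod n → ℝ, ∀ k x, t (n + k) x = M k (wz s n (n + k) x) :=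
    ⟨fun k r => t (n + k) (xx k r), fun k x => hteq _ _ _ (hxx k _).symm⟩
  have hMr : ∀ k r, M k r = ((Fintype.card (s.C (n + k)) : ℕ) - 1) * M (k + 1) r +
      M (k + 1) (r + 1) := by
    intro k r
    have h0 := hxx k r
    have h1 : M k r = t (n + k) (xx k r) := by rw [hM, h0]
    rw [h1, htr]
    have h2 : ∀ c, t (n + k + 1) ((s.e (n + k)).symm (xx k r, c)) =
        M (k + 1) (r + if c = s.c0 (n + k) then 1 else 0) := by
      intro c
      have h3 := hM (k + 1) ((s.e (n + k)).symm (xx k r, c))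
      have h4 := wz_symm s n (n + k) (xx k r) c
      rw [h0] at h4
      exact h3.trans (congrArg (M (k + 1)) h4)
    simp_rw [h2]
    rw [← Finset.add_sum_erase _ _ (Finset.mem_univ (s.c0 (n + k))), if_pos rfl, add_comm]
    congr 1
    rw [Finset.sum_congr rfl (g := fun _ => M (k + 1) r) (fun c hc => by
      rw [if_neg (Finset.ne_of_mem_erase hc), add_zero])]
    rw [Finset.sum_const, Finset.card_erase_of_mem (Finset.mem_univ _), Finset.card_univ,
      nsmul_eq_mul, Nat.cast_sub (hcard _), Nat.cast_one]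
  have hMc : ∀ k r r', M k r = M k r' := by
    refine const_of_rec (fun k => Fintype.card (s.C (n + k))) (fun k => hcard _) ?_
      (fun k => (Fintype.card (s.S (n + k)) : ℝ)) (fun k => by exact_mod_cast hSc _) ?_ M ?_ hMr
    · intro N
      obtain ⟨i, hi, hi2⟩ := hc2 (n + N)
      obtain ⟨d, rfl⟩ := Nat.exists_eq_add_of_le hi
      exact ⟨N + d, Nat.le_add_right _ _, by rw [← add_assoc]; exact hi2⟩
    · intro k
      have := card_S s (n + k)
      exact_mod_cast this
    · intro k r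
      rw [← hxx k r, ← hM]
      exact ht0 _ _
  -- the claim for large stages
  have hbig : ∀ k x, t (n + k) x = ((Fintype.card (s.S (n + k)) : ℝ))⁻¹ := by
    intro k x
    have h1 := hone (n + k)
    rw [Finset.sum_congr rfl (g := fun _ => t (n + k) x) (fun y _ => by
      rw [hM, hM]; exact hMc _ _ _), Finset.sum_const, Finset.card_univ, nsmul_eq_mul] at h1
    exact eq_inv_of_mul_eq_one_right h1
  have hdown : ∀ d k, (∀ x, t (k + d) x = ((Fintype.card (s.S (k + d)) : ℝ))⁻¹) →
      ∀ x, t k x = ((Fintype.card (s.S k) : ℝ))⁻¹ := by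
    intro d
    induction d with
    | zero => intro k h; exact h
    | succ d ih =>
      intro k h
      refine ih k fun x => ?_
      rw [htr]
      have h1 : ∀ c, t (k + d + 1) ((s.e (k + d)).symm (x, c)) =
          ((Fintype.card (s.S (k + d + 1)) : ℝ))⁻¹ := fun c => h _
      simp_rw [h1]
      rw [Finset.sum_const, Finset.card_univ, nsmul_eq_mul, card_S]
      have h2 : (0 : ℝ) < Fintype.card (s.S (k + d)) := by exact_mod_cast hSc _
      have h3 : (0 : ℝ) < Fintype.card (s.C (k + d)) := by exact_mod_cast hcard _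
      push_cast
      field_simp
  intro k x
  rw [ht, hdown n k (by rw [add_comm k n]; exact hbig k) x]
  push_cast
  rfl

end Pool.Agent.Helper44.CAR
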