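import Pool.Agent.Helper44.CAR.TRM

/-! CAR stage 3, TRU: uniqueness of compatible families of traces. -/

open scoped ComplexOrder ZeroAtInfty Topology
open TopologicalSpace

namespace Pool.Agent.Helper44.CAR

open Pool.Agent.Helper34.CAR Pool.Agent.Helper39.CR

section
variable {B : Type} [CStarAlgebra B] {θ : B →⋆ₐ[ℂ] B} (s : Sys B θ) (n : ℕ)

theorem sum_cd_one_mul (k : ℕ) (a : Gd B (wz s n k)) :
    (∑ x, cd B (wz s n k) x 1) * a = a := by
  refine Subtype.ext ?_
  have h1 : ((∑ x, cd B (wz s n k) x 1 : Gd B (wz s n k)) : Mt (s.S k) B) =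
      ∑ x, (Mt.single x x 1 : Mt (s.S k) B) :=
    map_sum (NonUnitalStarSubalgebraClass.subtype (grd B (wz s n k))) _ _
  change (((∑ x, cd B (wz s n k) x 1 : Gd B (wz s n k)) : Mt (s.S k) B)) * a.1 = a.1
  have h2 : ∑ x, (Mt.single x x 1 : Mt (s.S k) B) = 1 := by
    ext p q
    rw [Mt.sum_apply, Mt.one_apply, Finset.sum_eq_single p]
    · rw [Mt.single_apply]
      by_cases h : p = q
      · rw [if_pos ⟨rfl, h.symm⟩, if_pos h]
      · rw [if_neg fun h' => h h'.2.symm, if_neg h]
    · intro b _ hb
      rw [Mt.single_apply, if_neg fun h' => hb h'.1.symm]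
    · intro h
      exact absurd (Finset.mem_univ _) h
  rw [h1, h2, one_mul]

theorem cd_mul_cd (k : ℕ) (x : s.S k) (a : Gd B (wz s n k)) :
    cd B (wz s n k) x 1 * a * cd B (wz s n k) x 1 = cd B (wz s n k) x (a.1 x x) := by
  refine Subtype.ext ?_
  change (Mt.single x x 1 : Mt (s.S k) B) * a.1 * Mt.single x x 1 = Mt.single x x (a.1 x x)
  ext p q
  rw [Mt.mul_apply, Finset.sum_eq_single x, Mt.mul_apply, Finset.sum_eq_single x]
  · simp only [Mt.single_apply]
    by_cases h1 : p = x <;> by_cases h2 : q = x <;> simp [h1, h2]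
  · intro b _ hb
    rw [Mt.single_apply, if_neg fun h => hb h.2, zero_mul]
  · intro h
    exact absurd (Finset.mem_univ _) h
  · intro b _ hb
    rw [Mt.single_apply x x (1 : B) b q, if_neg fun h => hb h.1, mul_zero]
  · intro h
    exact absurd (Finset.mem_univ _) h

variable {s n} {τ : ∀ k, Gd B (wz s n k) →ₗ[ℂ] ℂ} (hτ : TrFam s n τ)
include hτ

theorem t_diag (k : ℕ) (a : Gd B (wz s n k)) :
    τ k a = ∑ x, τ k (cd B (wz s n k) x (a.1 x x)) := by
  conv_lhs => rw [← sum_cd_one_mul s n k a, Finset.sum_mul, map_sum]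
  refine Finset.sum_congr rfl fun x _ => ?_
  rw [← cd_mul_cd, hτ.tr k (cd B (wz s n k) x 1 * a) (cd B (wz s n k) x 1), ← mul_assoc,
    ← map_mul, one_mul]

theorem t_step (k : ℕ) (x : s.S k) (b : B) : τ k (cd B (wz s n k) x b) =
    ∑ c, τ (k + 1) (cd B (wz s n (k + 1)) ((s.e k).symm (x, c)) (s.K k b c c)) := by
  rw [← hτ.comp, t_diag hτ]
  rw [← (s.e k).symm.sum_comp, Fintype.sum_prod_type, Finset.sum_eq_single x]
  · refine Finset.sum_congr rfl fun c _ => ?_
    congr 2
    change s.κ k (Mt.single x x b) _ _ = _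
    rw [Sys.κ_apply, Equiv.apply_symm_apply, Mt.single_apply, if_pos ⟨rfl, rfl⟩]
  · intro y _ hy
    refine Finset.sum_eq_zero fun c _ => ?_
    have h1 : (kd s n k (cd B (wz s n k) x b)).1 ((s.e k).symm (y, c)) ((s.e k).symm (y, c)) =
        0 := by
      change s.κ k (Mt.single x x b) _ _ = _
      rw [Sys.κ_apply, Equiv.apply_symm_apply, Mt.single_apply, if_neg fun h => hy h.1, map_zero,
        Mt.zero_apply]
    rw [h1, map_zero, map_zero]
  · intro h
    exact absurd (Finset.mem_univ _) h

theorem t_bound (hPFB : S_PFB) (k : ℕ) (x : s.S k) (b : B) :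
    ‖τ k (cd B (wz s n k) x b)‖ ≤ ‖b‖ * (τ k (cd B (wz s n k) x 1)).re := by
  let f : B →ₗ[ℂ] ℂ :=
    { toFun := fun b => τ k (cd B (wz s n k) x b)
      map_add' := fun a b => by rw [map_add, map_add]
      map_smul' := fun c a => by rw [map_smul, map_smul, RingHom.id_apply] }
  refine hPFB B f (fun b => ?_) b
  change 0 ≤ τ k (cd B (wz s n k) x (star b * b))
  rw [map_mul, map_star]
  exact hτ.pos k _

end

theorem tru (hTRM : S_TRM) (hPFB : S_PFB) : S_TRU := by
  intro X _ θ s n hn hc2 hX τ τ' hτ hτ'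
  have hS : ∀ k, 0 < Fintype.card (s.S k) := by
    intro k
    induction k with
    | zero => exact Fintype.card_pos_iff.2 ⟨s.s0⟩
    | succ k ih =>
      rw [card_S]
      exact Nat.mul_pos ih (Fintype.card_pos_iff.2 ⟨s.c0 k⟩)
  have hC : ∀ k, 2 ≤ Fintype.card (s.C k) := by
    intro k
    have : Nontrivial (s.C k) := ⟨s.c0 k, s.c1 k, (s.step k).1⟩
    exact Fintype.one_lt_card
  have h1 := hTRM _ _ s n hn hc2 τ hτ
  have h1' := hTRM _ _ s n hn hc2 τ' hτ'
  obtain ⟨g, hg⟩ : ∃ g : ∀ k, s.S k → Unitization ℂ X → ℂ, ∀ k x b, g k x b =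
      τ k (cd _ (wz s n k) x b) - τ' k (cd _ (wz s n k) x b) := ⟨_, fun _ _ _ => rfl⟩
  have hsc : ∀ k x (z : ℂ), g k x (algebraMap ℂ _ z) = 0 := by
    intro k x z
    rw [hg, Algebra.algebraMap_eq_smul_one, map_smul, map_smul, map_smul, h1, h1', sub_self]
  have key : ∀ k x b, g k x b = 0 := by
    rcases hX with hX | hX
    · intro k x b
      have h2 : b = algebraMap ℂ _ b.fst := by
        refine Unitization.ext rfl ?_
        rw [hX b.snd]
        rfl
      rw [h2, hsc]
    · have hb : ∀ k x b, ‖g k x b‖ ≤ 2 * ‖b‖ * (1 / Fintype.card (s.S k)) := by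
        intro k x b
        rw [hg]
        refine (norm_sub_le _ _).trans ?_
        have h3 := t_bound hτ hPFB k x b
        have h4 := t_bound hτ' hPFB k x b
        rw [h1] at h3
        rw [h1'] at h4
        have h5 : (((Fintype.card (s.S k) : ℂ))⁻¹).re = 1 / (Fintype.card (s.S k) : ℝ) := by
          rw [one_div, ← Complex.ofReal_natCast, ← Complex.ofReal_inv, Complex.ofReal_re]
        rw [h5] at h3 h4
        linarith
      have hrec : ∀ k x b, g k x b = g (k + 1) ((s.e k).symm (x, s.c0 k))
          (Unitization.starMap θ b) + g (k + 1) ((s.e k).symm (x, s.c1 k)) b := by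
        intro k x b
        have hst := s.step k
        obtain ⟨h01, -, -, hK0, hK1, -, hK, -⟩ := hst
        rw [hg, t_step hτ, t_step hτ', ← Finset.sum_sub_distrib,
          ← Finset.add_sum_erase _ _ (Finset.mem_univ (s.c0 k)),
          ← Finset.add_sum_erase _ _ (Finset.mem_erase.2 ⟨h01.symm, Finset.mem_univ (s.c1 k)⟩),
          Finset.sum_eq_zero, add_zero, hK0, hK1, ← hg, ← hg]
        intro c hc
        rw [Finset.mem_erase, Finset.mem_erase] at hc
        obtain ⟨z, hz⟩ := hK b c c hc.2.1 hc.1 hc.2.1 hc.1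
        rw [hz, ← hg, hsc]
      obtain ⟨N, hN⟩ : ∃ N : ℕ → ℝ, ∀ k, N k = Fintype.card (s.S k) := ⟨_, fun _ => rfl⟩
      have hN0 : ∀ k, 0 < N k := fun k => by
        rw [hN]
        exact_mod_cast hS k
      have hNs : ∀ k, N (k + 1) = N k * Fintype.card (s.C k) := fun k => by
        rw [hN, hN, card_S]
        push_cast
        rfl
      have hm : ∀ m k x b, ‖g k x b‖ ≤ 2 * ‖b‖ * (2 ^ m / N (k + m)) := by
        intro m
        induction m with
        | zero =>
          intro k x b
          rw [pow_zero, add_zero, hN]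
          exact hb k x b
        | succ m ih =>
          intro k x b
          rw [hrec]
          refine (norm_add_le _ _).trans ?_
          have h3 := ih (k + 1) ((s.e k).symm (x, s.c0 k)) (Unitization.starMap θ b)
          have h4 := ih (k + 1) ((s.e k).symm (x, s.c1 k)) b
          have h5 : ‖(Unitization.starMap θ b : Unitization ℂ X)‖ ≤ ‖b‖ :=
            NonUnitalStarAlgHom.norm_apply_le (Unitization.starMap θ) b
          rw [show k + 1 + m = k + (m + 1) by ring] at h3 h4
          have h6 : 0 ≤ (2 : ℝ) ^ m / N (k + (m + 1)) := div_nonneg (by positivity) (hN0 _).le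
          have h7 : 2 * ‖(Unitization.starMap θ b : Unitization ℂ X)‖ *
              (2 ^ m / N (k + (m + 1))) ≤ 2 * ‖b‖ * (2 ^ m / N (k + (m + 1))) := by
            gcongr
          have h8 : (2 : ℝ) ^ (m + 1) / N (k + (m + 1)) = 2 * (2 ^ m / N (k + (m + 1))) := by
            rw [pow_succ]
            ring
          rw [h8]
          nlinarith
      have hr : ∀ k j, ∃ m, (2 : ℝ) ^ m / N (k + m) ≤ (1 / 2) ^ j := by
        intro k j
        have hmono : ∀ m, (2 : ℝ) ^ (m + 1) / N (k + (m + 1)) =
            2 ^ m / N (k + m) * (2 / Fintype.card (s.C (k + m))) := by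
          intro m
          rw [← add_assoc, hNs, pow_succ]
          have := hN0 (k + m)
          have h3 : (0 : ℝ) < Fintype.card (s.C (k + m)) := by
            have := hC (k + m)
            positivity
          field_simp
        have hdec : ∀ m d, (2 : ℝ) ^ (m + d) / N (k + (m + d)) ≤ 2 ^ m / N (k + m) := by
          intro m d
          induction d with
          | zero => exact le_rfl
          | succ d ih =>
            rw [← add_assoc m d 1, hmono]
            refine le_trans ?_ ih
            have h3 : (2 : ℝ) / Fintype.card (s.C (k + (m + d))) ≤ 1 := by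
              rw [div_le_one]
              · exact_mod_cast hC _
              · have := hC (k + (m + d))
                positivity
            have h4 : 0 ≤ (2 : ℝ) ^ (m + d) / N (k + (m + d)) :=
              div_nonneg (by positivity) (hN0 _).le
            exact mul_le_of_le_one_right h4 h3
        induction j with
        | zero =>
          refine ⟨0, ?_⟩
          rw [pow_zero, pow_zero, add_zero, div_le_one (hN0 _), hN]
          exact_mod_cast hS k
        | succ j ih =>
          obtain ⟨m, hm'⟩ := ih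
          obtain ⟨i, hi, hi4⟩ := hX (k + m)
          obtain ⟨d, rfl⟩ := Nat.exists_eq_add_of_le hi
          refine ⟨m + d + 1, ?_⟩
          rw [hmono, pow_succ]
          have h3 : (2 : ℝ) / Fintype.card (s.C (k + (m + d))) ≤ 1 / 2 := by
            rw [← add_assoc, div_le_div_iff₀ (by positivity) (by norm_num)]
            have : (4 : ℝ) ≤ Fintype.card (s.C (k + m + d)) := by exact_mod_cast hi4
            linarith
          have h4 : 0 ≤ (2 : ℝ) ^ (m + d) / N (k + (m + d)) :=
            div_nonneg (by positivity) (hN0 _).le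
          have h5 := (hdec m d).trans hm'
          calc _ ≤ (2 : ℝ) ^ (m + d) / N (k + (m + d)) * (1 / 2) := by gcongr
            _ ≤ _ := by gcongr
      intro k x b
      have h3 : Filter.Tendsto (fun j : ℕ => 2 * ‖b‖ * (1 / 2 : ℝ) ^ j) Filter.atTop
          (𝓝 (2 * ‖b‖ * 0)) :=
        (tendsto_pow_atTop_nhds_zero_of_lt_one (by norm_num) (by norm_num)).const_mul _
      rw [mul_zero] at h3
      refine norm_le_zero_iff.1 (ge_of_tendsto' h3 fun j => ?_)
      obtain ⟨m, hm'⟩ := hr k j
      refine (hm m k x b).trans ?_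
      gcongr
  intro k a
  rw [t_diag hτ, t_diag hτ']
  refine Finset.sum_congr rfl fun x _ => ?_
  have h2 := key k x (a.1 x x)
  rw [hg] at h2
  exact sub_eq_zero.1 h2

end Pool.Agent.Helper44.CAR
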