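import Mathlib
import Pool.Agent.Helper34.CAR.GoalsA

/-! CAR-UNT: property (N) for the unitization. -/

open scoped ComplexOrder

namespace Pool.Agent.Helper44.CAR

open Pool.Agent.Helper34.CAR

/-- extension of a matrix by zero -/
def exm {J : Type} (a : CStarMatrix J J ℂ) : CStarMatrix (Option J) (Option J) ℂ :=
  CStarMatrix.ofMatrix fun x y => match x, y with
    | some p, some q => a p q
    | _, _ => 0

theorem exm_ss {J : Type} (a : CStarMatrix J J ℂ) (p q : J) : exm a (some p) (some q) = a p q :=
  rfl

theorem exm_n {J : Type} (a : CStarMatrix J J ℂ) (y : Option J) : exm a none y = 0 := rfl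

theorem exm_n' {J : Type} (a : CStarMatrix J J ℂ) (x : Option J) : exm a x none = 0 := by
  cases x <;> rfl

/-- extension by zero as a homomorphism -/
def exh (J : Type) [Fintype J] [DecidableEq J] :
    CStarMatrix J J ℂ →⋆ₙₐ[ℂ] CStarMatrix (Option J) (Option J) ℂ where
  toFun := exm
  map_smul' r a := by
    ext x y
    cases x with
    | none => simp [exm_n]
    | some p =>
      cases y with
      | none => simp [exm_n']
      | some q => simp [exm_ss]
  map_zero' := by
    ext x y
    cases x with
    | none => simp [exm_n]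
    | some p =>
      cases y with
      | none => simp [exm_n']
      | some q => simp [exm_ss]
  map_add' a b := by
    ext x y
    cases x with
    | none => simp [exm_n]
    | some p =>
      cases y with
      | none => simp [exm_n']
      | some q => simp [exm_ss]
  map_mul' a b := by
    ext x y
    rw [CStarMatrix.mul_apply, Fintype.sum_option]
    cases x with
    | none => simp [exm_n]
    | some p =>
      cases y with
      | none => simp [exm_n']
      | some q =>
        simp only [exm_ss, exm_n', exm_n, zero_mul, zero_add]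
        rw [CStarMatrix.mul_apply]
  map_star' a := by
    ext x y
    rw [CStarMatrix.star_apply]
    cases x with
    | none => simp [exm_n, exm_n']
    | some p =>
      cases y with
      | none => simp [exm_n', exm_n]
      | some q => simp [exm_ss, CStarMatrix.star_apply]

theorem exists_compl (X : Type) [NonUnitalCStarAlgebra X] (S : X) (hS : IsSelfAdjoint S)
    (h1 : ‖S‖ ≤ 1) : ∃ t : Unitization ℂ X, star t * t = 1 - (S : Unitization ℂ X) := by
  let _ : PartialOrder (Unitization ℂ X) := CStarAlgebra.spectralOrder _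
  have _ : StarOrderedRing (Unitization ℂ X) := CStarAlgebra.spectralOrderedRing _
  have hS' : IsSelfAdjoint (S : Unitization ℂ X) := by
    rw [isSelfAdjoint_iff, ← Unitization.inr_star, hS.star_eq]
  have h2 : (S : Unitization ℂ X) ≤ 1 := by
    refine (IsSelfAdjoint.le_algebraMap_norm_self hS').trans ?_
    rw [Unitization.norm_inr]
    have h3 : algebraMap ℝ (Unitization ℂ X) ‖S‖ ≤ algebraMap ℝ (Unitization ℂ X) 1 :=
      algebraMap_mono _ h1
    simpa using h3
  have h4 : 0 ≤ 1 - (S : Unitization ℂ X) := sub_nonneg.2 h2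
  obtain ⟨t, ht⟩ := CStarAlgebra.nonneg_iff_eq_star_mul_self.1 h4
  exact ⟨t, ht.symm⟩

theorem unt : S_UNT := by
  intro X _ hX F ε hε
  classical
  obtain ⟨J, fJ, dJ, σ, v, hv, hσ⟩ := hX (F.image fun b => b.snd) ε hε
  set S : X := ∑ p, star (v p) * v p with hSdef
  have hS : IsSelfAdjoint S := by
    rw [isSelfAdjoint_iff, hSdef, star_sum]
    exact Finset.sum_congr rfl fun p _ => by rw [star_mul, star_star]
  obtain ⟨t, ht⟩ := exists_compl X S hS hv
  let ι : X →⋆ₙₐ[ℂ] Unitization ℂ X := Unitization.inrNonUnitalStarAlgHom ℂ X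
  have hι : ∀ x : X, (x : Unitization ℂ X) = ι x := fun x => rfl
  let σ' : Unitization ℂ X →⋆ₐ[ℂ] CStarMatrix (Option J) (Option J) ℂ :=
    Unitization.starLift ((exh J).comp σ)
  let v' : Option J → Unitization ℂ X := fun x => match x with
    | none => t
    | some p => ι (v p)
  have hσ' : ∀ b : Unitization ℂ X, σ' b = b.fst • 1 + exm (σ b.snd) := by
    intro b
    change algebraMap ℂ _ b.fst + exm (σ b.snd) = _
    rw [Algebra.algebraMap_eq_smul_one]
  have hsum : ∑ p, star (v' p) * v' p = 1 := by
    rw [Fintype.sum_option]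
    change star t * t + ∑ p, star (ι (v p)) * ι (v p) = 1
    have : ∑ p, star (ι (v p)) * ι (v p) = ι S := by
      rw [hSdef, map_sum]
      exact Finset.sum_congr rfl fun p _ => by rw [map_mul, map_star]
    rw [this, ht, hι, sub_add_cancel]
  refine ⟨Option J, inferInstance, inferInstance, σ', v', hsum, fun b hb => ?_⟩
  have e1 : qf (exm (σ b.snd)) v' = ι (qf (σ b.snd) v) := by
    unfold qf
    rw [Fintype.sum_option]
    have a1 : ∑ q, exm (σ b.snd) none q • (star (v' none) * v' q) = 0 :=
      Finset.sum_eq_zero fun q _ => by rw [exm_n, zero_smul]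
    rw [a1, zero_add, map_sum]
    refine Finset.sum_congr rfl fun p _ => ?_
    rw [Fintype.sum_option, exm_n', zero_smul, zero_add, map_sum]
    refine Finset.sum_congr rfl fun q _ => ?_
    rw [exm_ss, map_smul, map_mul, map_star]
  have e2 : qf ((b.fst • 1 : CStarMatrix (Option J) (Option J) ℂ)) v' = b.fst • 1 := by
    rw [← hsum]
    unfold qf
    rw [Finset.smul_sum]
    refine Finset.sum_congr rfl fun p _ => ?_
    rw [Finset.sum_eq_single p]
    · rw [CStarMatrix.smul_apply, CStarMatrix.one_apply, if_pos rfl, smul_eq_mul, mul_one]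
    · intro q _ hq
      rw [CStarMatrix.smul_apply, CStarMatrix.one_apply, if_neg hq.symm, smul_zero, zero_smul]
    · simp
  have e3 : qf (σ' b) v' = b.fst • 1 + ι (qf (σ b.snd) v) := by
    rw [hσ', ← e1, ← e2]
    simp only [qf, CStarMatrix.add_apply, add_smul, Finset.sum_add_distrib]
  have h2 : qf (σ' b) v' - b = ι (qf (σ b.snd) v - b.snd) := by
    rw [e3, map_sub]
    have : b = b.fst • 1 + ι b.snd := by
      conv_lhs => rw [← Unitization.inl_fst_add_inr_snd_eq b]
      rw [← hι, ← Algebra.algebraMap_eq_smul_one]
      rfl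
    have h5 : ∀ u w z y : Unitization ℂ X, z = u + w → u + y - z = y - w := by
      intro u w z y h
      rw [h]; abel
    exact h5 _ _ _ _ this
  rw [h2]
  change ‖((qf (σ b.snd) v - b.snd : X) : Unitization ℂ X)‖ < ε
  rw [Unitization.norm_inr]
  exact hσ _ (Finset.mem_image_of_mem _ hb)

end Pool.Agent.Helper44.CAR
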