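import Mathlib
import Pool.Agent.Helper34.CAR.GoalsB

/-! CAR-FIXN: fixed points of the automorphisms of finite order. -/

open scoped ComplexOrder

namespace Pool.Agent.Helper44.CAR

open Pool.Agent.Helper34.CAR

theorem zeta_pow_eq {n : ℕ} (hn : 0 < n) (p q : ℕ) :
    ((Circle.exp (2 * Real.pi / n) : Circle) : ℂ) ^ p
      = ((Circle.exp (2 * Real.pi / n) : Circle) : ℂ) ^ q ↔ p ≡ q [MOD n] := by
  have h1 : ((Circle.exp (2 * Real.pi / n) : Circle) : ℂ)
      = Complex.exp (2 * Real.pi * Complex.I / n) := by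
    rw [Circle.coe_exp]
    congr 1
    push_cast
    ring
  have h2 := Complex.isPrimitiveRoot_exp n hn.ne'
  rw [h1]
  have h0 : Complex.exp (2 * Real.pi * Complex.I / n) ≠ 0 := Complex.exp_ne_zero _
  have h3 : Complex.exp (2 * Real.pi * Complex.I / n) ^ p
      = Complex.exp (2 * Real.pi * Complex.I / n) ^ q ↔
      Complex.exp (2 * Real.pi * Complex.I / n) ^ ((q : ℤ) - p) = 1 := by
    rw [zpow_sub₀ h0, zpow_natCast, zpow_natCast, div_eq_one_iff_eq (pow_ne_zero _ h0), eq_comm]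
  rw [h3, h2.zpow_eq_one_iff_dvd, Nat.modEq_iff_dvd]

theorem zeta_star {n : ℕ} (q : ℕ) :
    ((Circle.exp (2 * Real.pi / n) : Circle) : ℂ) ^ q
      * star (((Circle.exp (2 * Real.pi / n) : Circle) : ℂ) ^ q) = 1 := by
  set z : Circle := Circle.exp (2 * Real.pi / n)
  have : (z : ℂ) ^ q = ((z ^ q : Circle) : ℂ) := by simp
  rw [this, Complex.star_def, Complex.mul_conj, Complex.normSq_eq_norm_sq, Circle.norm_coe]
  simp

theorem geom {n : ℕ} (hn : 0 < n) (p q : ℕ) :
    ∑ k ∈ Finset.range n, (((Circle.exp (2 * Real.pi / n)) ^ k : Circle) : ℂ) ^ p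
      * star ((((Circle.exp (2 * Real.pi / n)) ^ k : Circle) : ℂ) ^ q)
      = if p ≡ q [MOD n] then (n : ℂ) else 0 := by
  set z : Circle := Circle.exp (2 * Real.pi / n) with hz
  set r : ℂ := (z : ℂ) ^ p * star ((z : ℂ) ^ q) with hr
  have h1 : ∀ k, (((z ^ k : Circle) : ℂ)) ^ p * star (((z ^ k : Circle) : ℂ) ^ q) = r ^ k := by
    intro k
    rw [hr, mul_pow, ← star_pow, Circle.coe_pow]
    ring_nf
  simp_rw [h1]
  split_ifs with h
  · have : r = 1 := by
      rw [hr, hz, (zeta_pow_eq hn p q).2 h]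
      exact zeta_star q
    rw [this]; simp
  · have hr1 : r ≠ 1 := by
      intro h2
      apply h
      rw [← zeta_pow_eq hn]
      have h3 : (z : ℂ) ^ p * (star ((z : ℂ) ^ q) * (z : ℂ) ^ q) = (z : ℂ) ^ q := by
        rw [← mul_assoc, ← hr, h2, one_mul]
      have h4 : star ((z : ℂ) ^ q) * (z : ℂ) ^ q = 1 := by
        rw [mul_comm]; exact zeta_star q
      rw [h4, mul_one] at h3
      exact h3
    have hrn : r ^ n = 1 := by
      have h5 : (z : ℂ) ^ n = 1 := by
        have := (zeta_pow_eq hn n 0).2 (by simp [Nat.ModEq])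
        rw [pow_zero] at this
        exact this
      rw [hr, mul_pow, ← star_pow, ← pow_mul, ← pow_mul, mul_comm p, mul_comm q, pow_mul, pow_mul,
        h5]
      simp
    have := mul_geom_sum r n
    rw [hrn, sub_self] at this
    exact (mul_eq_zero.1 this).resolve_left (sub_ne_zero.2 hr1)

theorem act_pow {A : Type} [CStarAlgebra A] (γ : CircleAction A) (z : Circle) (b : A)
    (h : γ.act z b = b) (k : ℕ) : γ.act (z ^ k) b = b := by
  induction k with
  | zero => rw [pow_zero, γ.one]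
  | succ k ih => rw [pow_succ, γ.mul, h, ih]

theorem fixn : S_FIXN := by
  intro B _ θ s L _ ι hdense γ hγ n hn
  set z : Circle := Circle.exp (2 * Real.pi / n) with hz
  apply Set.Subset.antisymm
  · intro b hb
    have hb' : γ.act z b = b := hb
    rw [Metric.mem_closure_iff]
    intro ε hε
    have hbd : b ∈ closure (⋃ i, Set.range (ι i)) := hdense b
    obtain ⟨c, hc, hbc⟩ := Metric.mem_closure_iff.1 hbd ε hε
    obtain ⟨i, a, rfl⟩ := Set.mem_iUnion.1 hc
    let a' : s.A i := Mt.of fun x y => if s.wt i x ≡ s.wt i y [MOD n] then a x y else 0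
    refine ⟨ι i a', ⟨i, a', fun x y h => if_neg h, rfl⟩, ?_⟩
    have hn' : (n : ℂ) ≠ 0 := by exact_mod_cast hn.ne'
    have e1 : a' = (n : ℂ)⁻¹ • ∑ k ∈ Finset.range n, (Mt.of fun x y =>
        ((((z ^ k : Circle) : ℂ) ^ s.wt i x * star (((z ^ k : Circle) : ℂ) ^ s.wt i y)) • a x y) :
          s.A i) := by
      ext x y
      rw [Mt.smul_apply, Mt.sum_apply]
      simp only [Mt.of_apply, a']
      rw [← Finset.sum_smul, hz, geom hn, smul_smul]
      split_ifs
      · rw [inv_mul_cancel₀ hn', one_smul]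
      · rw [mul_zero, zero_smul]
    have e2 : ι i a' = (n : ℂ)⁻¹ • ∑ k ∈ Finset.range n, γ.act (z ^ k) (ι i a) := by
      rw [e1, map_smul, map_sum]
      congr 1
      exact Finset.sum_congr rfl fun k _ => (hγ _ _ _).symm
    have e3 : b = (n : ℂ)⁻¹ • ∑ k ∈ Finset.range n, γ.act (z ^ k) b := by
      rw [Finset.sum_congr rfl fun k _ => act_pow γ z b hb' k, Finset.sum_const, Finset.card_range,
        ← Nat.cast_smul_eq_nsmul ℂ, smul_smul, inv_mul_cancel₀ hn', one_smul]
    have e4 : b - ι i a' = (n : ℂ)⁻¹ • ∑ k ∈ Finset.range n, γ.act (z ^ k) (b - ι i a) := by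
      conv_lhs => rw [e2]
      nth_rewrite 1 [e3]
      rw [← smul_sub, ← Finset.sum_sub_distrib]
      congr 1
      exact Finset.sum_congr rfl fun k _ => (map_sub _ _ _).symm
    rw [dist_eq_norm, e4, norm_smul, norm_inv, Complex.norm_natCast]
    have e5 : ‖∑ k ∈ Finset.range n, γ.act (z ^ k) (b - ι i a)‖ ≤ n * ‖b - ι i a‖ := by
      refine (norm_sum_le _ _).trans ?_
      calc ∑ k ∈ Finset.range n, ‖γ.act (z ^ k) (b - ι i a)‖
          ≤ ∑ k ∈ Finset.range n, ‖b - ι i a‖ :=
            Finset.sum_le_sum fun k _ => NonUnitalStarAlgHom.norm_apply_le _ _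
        _ = _ := by simp
    have hn0 : (0 : ℝ) < n := by exact_mod_cast hn
    rw [dist_eq_norm] at hbc
    calc (n : ℝ)⁻¹ * ‖∑ k ∈ Finset.range n, γ.act (z ^ k) (b - ι i a)‖
        ≤ (n : ℝ)⁻¹ * (n * ‖b - ι i a‖) := by gcongr
      _ = ‖b - ι i a‖ := by field_simp
      _ < ε := hbc
  · have hcl : IsClosed {b | γ.act z b = b} := by
      have hcont : Continuous (γ.act z) :=
        AddMonoidHomClass.continuous_of_bound (γ.act z) 1 fun x => by
          rw [one_mul]; exact NonUnitalStarAlgHom.norm_apply_le _ _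
      exact isClosed_eq hcont continuous_id
    refine closure_minimal ?_ hcl
    rintro b ⟨i, a, ha, rfl⟩
    change γ.act z (ι i a) = ι i a
    rw [hγ]
    congr 1
    ext x y
    rw [Mt.of_apply]
    by_cases h : s.wt i x ≡ s.wt i y [MOD n]
    · rw [hz, (zeta_pow_eq hn _ _).2 h, zeta_star, one_smul]
    · rw [ha x y h, smul_zero]

end Pool.Agent.Helper44.CAR
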