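import Mathlib
import Pool.Agent.Helper34.CAR.GoalsA

/-! CAR-FLAT: matrices of matrices are matrices. -/

open scoped ComplexOrder

namespace Pool.Agent.Helper44.CAR

open Pool.Agent.Helper34.CAR

/-- the flattening -/
noncomputable def flatten (B I K : Type) [CStarAlgebra B] [Fintype I] [DecidableEq I] [Fintype K]
    [DecidableEq K] : Mt I (Mt K B) →⋆ₐ[ℂ] Mt (I × K) B where
  toFun a := Mt.of fun x y => a x.1 y.1 x.2 y.2
  map_one' := by
    ext x y
    rw [Mt.of_apply, Mt.one_apply, Mt.one_apply]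
    by_cases h1 : x.1 = y.1
    · rw [if_pos h1, Mt.one_apply]
      by_cases h2 : x.2 = y.2
      · rw [if_pos h2, if_pos (Prod.ext h1 h2)]
      · rw [if_neg h2, if_neg fun h => h2 (by rw [h])]
    · rw [if_neg h1, Mt.zero_apply, if_neg fun h => h1 (by rw [h])]
  map_mul' a b := by
    ext x y
    rw [Mt.of_apply, Mt.mul_apply, Mt.mul_apply, Mt.sum_apply, Fintype.sum_prod_type]
    refine Finset.sum_congr rfl fun k _ => ?_
    rw [Mt.mul_apply]
    rfl
  map_zero' := by ext x y; rfl
  map_add' a b := by ext x y; rfl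
  commutes' c := by
    ext x y
    rw [Mt.of_apply, Mt.algebraMap_apply, Mt.algebraMap_apply]
    by_cases h1 : x.1 = y.1
    · rw [if_pos h1, Mt.algebraMap_apply]
      by_cases h2 : x.2 = y.2
      · rw [if_pos h2, if_pos (Prod.ext h1 h2)]
      · rw [if_neg h2, if_neg fun h => h2 (by rw [h])]
    · rw [if_neg h1, Mt.zero_apply, if_neg fun h => h1 (by rw [h])]
  map_star' a := by ext x y; rfl

theorem flat : S_FLAT := by
  intro B I K _ _ _ _ _
  refine ⟨flatten B I K, ⟨?_, ?_⟩, fun _ _ _ => rfl⟩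
  · intro a b h
    ext i j k l
    exact congrFun (congrFun h (i, k)) (j, l)
  · intro c
    exact ⟨Mt.of fun i j => Mt.of fun k l => c (i, k) (j, l), by ext x y; rfl⟩

end Pool.Agent.Helper44.CAR
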